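import Mathlib

set_option autoImplicit false

/-!
# The numerical recursion satisfied by `4^k - C(2k+1,k)`
-/

open Finset PowerSeries

namespace Pool.Agent.NH68.Wg

section

variable (K : Type*) [Field K] [CharZero K]

/-- Catalan series -/
noncomputable def Cs : PowerSeries K := PowerSeries.mk fun n => (catalan n : K)

noncomputable def Bs : PowerSeries K := PowerSeries.mk fun n => (Nat.centralBinom n : K)

noncomputable def Ds : PowerSeries K := PowerSeries.mk fun n => (Nat.choose (2 * n + 1) n : K)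

noncomputable def Fs : PowerSeries K := PowerSeries.mk fun n => (4 ^ n : K)

noncomputable def Ss : PowerSeries K :=
  PowerSeries.mk fun n => (4 ^ n - (Nat.choose (2 * n + 1) n : K))

lemma Cs_eq : Cs K = 1 + X * Cs K ^ 2 := by
  have h := congrArg (PowerSeries.map (Nat.castRingHom K)) catalanSeries_sq_mul_X_add_one
  have h2 : PowerSeries.map (Nat.castRingHom K) catalanSeries = Cs K := by
    ext n
    simp [Cs]
  rw [map_add, map_mul, map_pow, h2, map_X, map_one] at h
  linear_combination (-1 : PowerSeries K) * h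

lemma Bs_eq : Bs K = Cs K + X * d⁄dX K (Cs K) := by
  ext n
  rw [map_add]
  rcases n with _ | n
  · simp [Bs, Cs]
  · rw [coeff_succ_X_mul, coeff_derivative, Cs, Bs, coeff_mk, coeff_mk,
      ← succ_mul_catalan_eq_centralBinom]
    push_cast
    ring

lemma Cd : d⁄dX K (Cs K) * (1 - 2 * X * Cs K) = Cs K ^ 2 := by
  have h := congrArg (d⁄dX K) (Cs_eq K)
  rw [map_add, Derivation.leibniz, Derivation.leibniz_pow, derivative_X] at h
  have h1 : d⁄dX K (1 : PowerSeries K) = 0 := by simp
  rw [h1] at h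
  simp only [smul_eq_mul, nsmul_eq_mul] at h
  push_cast at h
  linear_combination h

lemma B_mul : Bs K * (1 - 2 * X * Cs K) = 1 := by
  rw [Bs_eq]
  linear_combination X * Cd K + Cs_eq K

lemma C_sq : (1 - 2 * X * Cs K) ^ 2 = 1 - 4 * X := by
  linear_combination (-4 : PowerSeries K) * X * Cs_eq K

lemma B_sq : Bs K ^ 2 * (1 - 4 * X) = 1 := by
  rw [← C_sq, ← mul_pow, B_mul, one_pow]

lemma F_mul : Fs K * (1 - 4 * X) = 1 := by
  ext n
  rcases n with _ | n
  · simp [Fs]
  · rw [mul_sub, mul_one, map_sub, show Fs K * (4 * X) = 4 * Fs K * X by ring, coeff_succ_mul_X]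
    have : (4 : PowerSeries K) = C (4 : K) := (map_ofNat C 4).symm
    rw [this, coeff_C_mul, Fs, coeff_mk, coeff_mk, coeff_one, if_neg n.succ_ne_zero]
    ring

lemma F_eq : Fs K = Bs K ^ 2 := by
  have h1 := B_sq K
  have h2 := F_mul K
  calc Fs K = Fs K * (Bs K ^ 2 * (1 - 4 * X)) := by rw [h1, mul_one]
    _ = Bs K ^ 2 * (Fs K * (1 - 4 * X)) := by ring
    _ = Bs K ^ 2 := by rw [h2, mul_one]

lemma choose_two (n : ℕ) : Nat.centralBinom (n + 1) = 2 * Nat.choose (2 * n + 1) n := by
  have h : Nat.choose (2 * n + 1) (n + 1) = Nat.choose (2 * n + 1) n :=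
    Nat.choose_symm_of_eq_add (show 2 * n + 1 = (n + 1) + n by ring)
  rw [Nat.centralBinom_eq_two_mul_choose, show 2 * (n + 1) = (2 * n + 1) + 1 by ring,
    Nat.choose_succ_succ, Nat.succ_eq_add_one, h]
  ring

lemma D_mul : 2 * X * Ds K = Bs K - 1 := by
  ext n
  rcases n with _ | n
  · rw [show 2 * X * Ds K = X * (2 * Ds K) by ring]
    simp [Bs]
  · rw [show 2 * X * Ds K = (2 * Ds K) * X by ring, coeff_succ_mul_X, map_sub, coeff_one,
      if_neg n.succ_ne_zero, sub_zero, Bs, coeff_mk, choose_two]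
    have : (2 : PowerSeries K) = C (2 : K) := (map_ofNat C 2).symm
    rw [this, coeff_C_mul, Ds, coeff_mk]
    push_cast
    ring

lemma D_eq : Ds K = Bs K * Cs K := by
  have h1 : (2 : PowerSeries K) * X ≠ 0 := by
    apply mul_ne_zero _ X_ne_zero
    have : (2 : PowerSeries K) = C (2 : K) := (map_ofNat C 2).symm
    rw [this]
    intro h
    have h2 : (C (2 : K) : PowerSeries K) = C 0 := by rw [h, map_zero]
    exact two_ne_zero (C_injective h2)
  apply mul_left_cancel₀ h1
  rw [D_mul]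
  linear_combination B_mul K

lemma S_eq : Ss K = Fs K - Ds K := by
  ext n
  rw [map_sub, Ss, Fs, Ds, coeff_mk, coeff_mk, coeff_mk]

lemma S_rec : Ss K = X * d⁄dX K (Cs K) + 2 * (X * (Cs K * Ss K)) := by
  rw [S_eq, F_eq, D_eq]
  linear_combination (Bs K - Cs K) * B_mul K + Bs_eq K

/-- the recursion -/
lemma num_rec (k : ℕ) :
    (4 ^ (k + 1) - (Nat.choose (2 * (k + 1) + 1) (k + 1) : K)) =
      ((k + 1 : ℕ) : K) * (catalan (k + 1) : K) +
      2 * ∑ i ∈ range (k + 1), (catalan i : K) *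
        (4 ^ (k - i) - (Nat.choose (2 * (k - i) + 1) (k - i) : K)) := by
  have h := congrArg (coeff (k + 1)) (S_rec K)
  have h2 : (2 : PowerSeries K) = C (2 : K) := (map_ofNat C 2).symm
  rw [map_add, coeff_succ_X_mul, h2, coeff_C_mul, coeff_succ_X_mul, coeff_derivative, Ss, coeff_mk,
    Cs, coeff_mk, coeff_mul] at h
  rw [h]
  congr 1
  · push_cast; ring
  · congr 1
    rw [Nat.sum_antidiagonal_eq_sum_range_succ_mk]
    apply Finset.sum_congr rfl
    intro i _
    simp only [coeff_mk]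

end

/-- the dual-number valued weight `Cat_k + ε (4^k - C(2k+1,k))` -/
noncomputable def wD (K : Type*) [Field K] (k : ℕ) : DualNumber K :=
  TrivSqZeroExt.inl (catalan k : K) +
    TrivSqZeroExt.inr (4 ^ k - (Nat.choose (2 * k + 1) k : K))

lemma wD_zero (K : Type*) [Field K] : wD K 0 = 1 := by
  rw [wD]
  simp

lemma wD_fst (K : Type*) [Field K] (k : ℕ) : (wD K k).fst = (catalan k : K) := by simp [wD]

lemma wD_snd (K : Type*) [Field K] (k : ℕ) :
    (wD K k).snd = 4 ^ k - (Nat.choose (2 * k + 1) k : K) := by simp [wD]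

lemma wD_rec (K : Type*) [Field K] [CharZero K] (l : ℕ) (hl : 2 ≤ l) :
    wD K (l - 1) = ∑ s ∈ Ico 1 l, wD K (l - s - 1) * wD K (s - 1) +
      TrivSqZeroExt.inr (((l - 1 : ℕ) : K) * (wD K (l - 1)).fst) := by
  obtain ⟨k, rfl⟩ : ∃ k, l = k + 2 := ⟨l - 2, by omega⟩
  have h1 : ∑ s ∈ Ico 1 (k + 2), wD K (k + 2 - s - 1) * wD K (s - 1) =
      ∑ i ∈ range (k + 1), wD K (k - i) * wD K i := by
    rw [Finset.sum_Ico_eq_sum_range]
    apply Finset.sum_congr rfl
    intro i _
    congr 2 <;> omega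
  rw [h1, show k + 2 - 1 = k + 1 by omega]
  apply TrivSqZeroExt.ext
  · rw [TrivSqZeroExt.fst_add, TrivSqZeroExt.fst_inr, add_zero, TrivSqZeroExt.fst_sum, wD_fst,
      catalan_succ', Nat.sum_antidiagonal_eq_sum_range_succ_mk]
    push_cast
    apply Finset.sum_congr rfl
    intro i _
    rw [TrivSqZeroExt.fst_mul, wD_fst, wD_fst]
    ring
  · rw [TrivSqZeroExt.snd_add, TrivSqZeroExt.snd_inr, TrivSqZeroExt.snd_sum, wD_snd, num_rec,
      wD_fst, add_comm]
    congr 1
    have h2 : ∀ i, (wD K (k - i) * wD K i).snd =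
        (catalan (k - i) : K) * (4 ^ i - (Nat.choose (2 * i + 1) i : K)) +
        (catalan i : K) * (4 ^ (k - i) - (Nat.choose (2 * (k - i) + 1) (k - i) : K)) := by
      intro i
      rw [TrivSqZeroExt.snd_mul, wD_fst, wD_fst, wD_snd, wD_snd]
      simp
      ring
    rw [Finset.sum_congr rfl fun i _ => h2 i, Finset.sum_add_distrib, two_mul]
    congr 1
    rw [← Finset.sum_range_reflect]
    apply Finset.sum_congr rfl
    intro i hi
    rw [mem_range] at hi
    rw [show k + 1 - 1 - i = k - i by omega, show k - (k - i) = i by omega]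

end Pool.Agent.NH68.Wg
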