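import Pool.Agent.NH68.Wg.Rec
import Pool.Agent.NH68.Wg.Num

set_option autoImplicit false
set_option linter.unusedSectionVars false
set_option linter.unusedVariables false

/-!
# The group algebra: Jucys–Murphy elements and complete homogeneous polynomials in them
-/

open Finset

namespace Pool.Agent.NH68.Wg

/-- the point `2i` of `Fin (2n)` (the problem's point `2i-1`) -/
def lo {n : ℕ} (i : Fin n) : Fin (2 * n) := ⟨2 * i.val, by omega⟩

/-- the point `2i+1` of `Fin (2n)` (the problem's point `2i`) -/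
def hi {n : ℕ} (i : Fin n) : Fin (2 * n) := ⟨2 * i.val + 1, by omega⟩

/-- The Jucys–Murphy element of the point `x`: the sum of the transpositions `(y x)`, `y < x`. -/
noncomputable def JM {n : ℕ} (x : Fin (2 * n)) :
    MonoidAlgebra ℂ (Equiv.Perm (Fin (2 * n))) :=
  ∑ y ∈ univ.filter (fun y => y < x), MonoidAlgebra.single (Equiv.swap y x) 1

open Classical in
/-- The sum of the elements of the hyperoctahedral group, the centraliser of
`(0 1)(2 3)…(2n-2 2n-1)`. -/
noncomputable def PH (n : ℕ) : MonoidAlgebra ℂ (Equiv.Perm (Fin (2 * n))) :=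
  ∑ ζ ∈ univ.filter (fun ζ => ζ ∈ Subgroup.centralizer {base n}), MonoidAlgebra.single ζ 1

open Classical in
/-- The complete homogeneous polynomial `h_k(J_1, J_3, …, J_{2n-1})`: the sum over all weakly
decreasing sequences of indices of the product of the corresponding elements. -/
noncomputable def hJ (n k : ℕ) : MonoidAlgebra ℂ (Equiv.Perm (Fin (2 * n))) :=
  ∑ f ∈ univ.filter (fun f : Fin k → Fin n => Antitone f), (List.ofFn fun t => JM (lo (f t))).prod

section hgen

variable {A : Type*} [Ring A] {n : ℕ}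

open Classical in
/-- restricted version -/
noncomputable def hgen (J : Fin n → A) (k j : ℕ) : A :=
  ∑ f ∈ univ.filter (fun f : Fin k → Fin n => Antitone f ∧ ∀ t, (f t).val < j),
    (List.ofFn fun t => J (f t)).prod

lemma hgen_zero (J : Fin n → A) (j : ℕ) : hgen J 0 j = 1 := by
  rw [hgen]
  rw [Finset.sum_eq_single (Fin.elim0)]
  · simp
  · intro b _ hb
    exact absurd (Subsingleton.elim _ _) hb
  · intro h
    exfalso
    apply h
    rw [mem_filter]
    exact ⟨mem_univ _, fun a => a.elim0, fun a => a.elim0⟩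

lemma antitone_cons {k : ℕ} (a : Fin n) (g : Fin k → Fin n) :
    Antitone (Fin.cons a g : Fin (k + 1) → Fin n) ↔ Antitone g ∧ ∀ t, g t ≤ a := by
  constructor
  · intro h
    constructor
    · intro s t hst
      have := h (Fin.succ_le_succ_iff.mpr hst)
      rwa [Fin.cons_succ, Fin.cons_succ] at this
    · intro t
      have := h (Fin.zero_le t.succ)
      rwa [Fin.cons_succ, Fin.cons_zero] at this
  · rintro ⟨h1, h2⟩ s t hst
    induction s using Fin.cases with
    | zero =>
      rw [Fin.cons_zero]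
      induction t using Fin.cases with
      | zero => rw [Fin.cons_zero]
      | succ t => rw [Fin.cons_succ]; exact h2 t
    | succ s =>
      induction t using Fin.cases with
      | zero =>
        exfalso
        have := Fin.succ_pos s
        exact absurd hst (not_le.mpr this)
      | succ t =>
        rw [Fin.cons_succ, Fin.cons_succ]
        exact h1 (Fin.succ_le_succ_iff.mp hst)

lemma hgen_sum (J : Fin n → A) (k j : ℕ) :
    hgen J (k + 1) j = ∑ a : Fin n, if a.val < j then J a * hgen J k (a.val + 1) else 0 := by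
  classical
  rw [hgen, Finset.sum_filter, ← (Fin.consEquiv (fun _ => Fin n)).sum_comp, Fintype.sum_prod_type]
  apply Finset.sum_congr rfl
  intro a _
  rw [hgen, Finset.mul_sum, Finset.sum_filter]
  split_ifs with ha
  · apply Finset.sum_congr rfl
    intro g _
    have h1 : (Antitone ((Fin.consEquiv fun _ => Fin n) (a, g)) ∧
        ∀ t, (((Fin.consEquiv fun _ => Fin n) (a, g)) t).val < j) ↔
        (Antitone g ∧ ∀ t, (g t).val < a.val + 1) := by
      change (Antitone (Fin.cons a g : Fin (k + 1) → Fin n) ∧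
        ∀ t, ((Fin.cons a g : Fin (k + 1) → Fin n) t).val < j) ↔ _
      rw [antitone_cons, Fin.forall_fin_succ]
      simp only [Fin.cons_zero, Fin.cons_succ]
      constructor
      · rintro ⟨⟨h1, h2⟩, h3, h4⟩
        exact ⟨h1, fun t => Nat.lt_succ_of_le (h2 t)⟩
      · rintro ⟨h1, h2⟩
        refine ⟨⟨h1, fun t => Nat.le_of_lt_succ (h2 t)⟩, ha, fun t => ?_⟩
        have := h2 t
        omega
    rw [if_congr h1 rfl rfl]
    split_ifs with h2
    · change (List.ofFn fun t => J ((Fin.cons a g : Fin (k + 1) → Fin n) t)).prod = _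
      rw [List.ofFn_succ, List.prod_cons]
      simp only [Fin.cons_zero, Fin.cons_succ]
    · rfl
  · apply Finset.sum_eq_zero
    intro g _
    rw [if_neg]
    rintro ⟨_, h2⟩
    apply ha
    exact h2 0

lemma hgen_succ_zero (J : Fin n → A) (k : ℕ) : hgen J (k + 1) 0 = 0 := by
  rw [hgen_sum]
  apply Finset.sum_eq_zero
  intro a _
  rw [if_neg (by omega)]

lemma hgen_succ (J : Fin n → A) (k j : ℕ) : hgen J (k + 1) (j + 1) =
    hgen J (k + 1) j + if h : j < n then J ⟨j, h⟩ * hgen J k (j + 1) else 0 := by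
  rw [hgen_sum, hgen_sum]
  split_ifs with h
  · have h1 : J ⟨j, h⟩ * hgen J k (j + 1) =
        ∑ a : Fin n, if a = ⟨j, h⟩ then J a * hgen J k (a.val + 1) else 0 := by
      rw [Finset.sum_ite_eq' univ (⟨j, h⟩ : Fin n), if_pos (mem_univ _)]
    rw [h1, ← Finset.sum_add_distrib]
    apply Finset.sum_congr rfl
    intro a _
    rcases lt_trichotomy a.val j with h2 | h2 | h2
    · rw [if_pos (by omega), if_pos h2, if_neg, add_zero]
      rintro rfl
      simp at h2
    · rw [if_pos (by omega), if_neg (by omega), if_pos (Fin.ext h2), zero_add]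
    · rw [if_neg (by omega), if_neg (by omega), if_neg, add_zero]
      rintro rfl
      simp at h2
  · rw [add_zero]
    apply Finset.sum_congr rfl
    intro a _
    have := a.isLt
    rw [if_pos (by omega), if_pos (by omega)]

end hgen

lemma hJ_eq (n k : ℕ) : hJ n k = hgen (fun i : Fin n => JM (lo i)) k n := by
  classical
  rw [hJ, hgen]
  apply Finset.sum_congr _ fun _ _ => rfl
  apply Finset.filter_congr
  intro f _
  constructor
  · intro h; exact ⟨h, fun t => (f t).isLt⟩
  · intro h; exact h.1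

lemma JM_mul_apply {n : ℕ} (x : Fin (2 * n)) (F : MonoidAlgebra ℂ (Equiv.Perm (Fin (2 * n))))
    (σ : Equiv.Perm (Fin (2 * n))) :
    (JM x * F).coeff σ = ∑ y ∈ univ.filter (fun y => y < x), F.coeff (Equiv.swap y x * σ) := by
  rw [JM, Finset.sum_mul, MonoidAlgebra.coeff_sum, Finsupp.finsetSum_apply]
  apply Finset.sum_congr rfl
  intro y _
  rw [MonoidAlgebra.coeff_single_mul_apply, one_mul, Equiv.swap_inv]

/-- the matching of `σ` -/
def mt {n : ℕ} (σ : Equiv.Perm (Fin (2 * n))) : Equiv.Perm (Fin (2 * n)) := σ * base n * σ⁻¹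

lemma mt_fpf {n : ℕ} (σ : Equiv.Perm (Fin (2 * n))) : FPF (mt σ) where
  inv x := by
    change σ (base n (σ⁻¹ (σ (base n (σ⁻¹ x))))) = x
    have h1 : σ⁻¹ (σ (base n (σ⁻¹ x))) = base n (σ⁻¹ x) := σ.symm_apply_apply _
    rw [h1, (base_fpf n).inv]
    exact σ.apply_symm_apply x
  ne x h := by
    apply (base_fpf n).ne (σ⁻¹ x)
    have h1 : σ⁻¹ (σ (base n (σ⁻¹ x))) = base n (σ⁻¹ x) := σ.symm_apply_apply _
    rw [← h1]
    exact congrArg _ h

lemma mt_swap {n : ℕ} (σ : Equiv.Perm (Fin (2 * n))) (y x : Fin (2 * n)) :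
    mt (Equiv.swap y x * σ) = cj y x (mt σ) := by
  rw [mt, mt, cj, mul_inv_rev, Equiv.swap_inv]
  simp only [mul_assoc]

lemma PH_apply {n : ℕ} (σ : Equiv.Perm (Fin (2 * n))) :
    (PH n).coeff σ = if mt σ = base n then 1 else 0 := by
  classical
  rw [PH, MonoidAlgebra.coeff_sum, Finsupp.finsetSum_apply]
  have h1 : mt σ = base n ↔ σ ∈ Subgroup.centralizer {base n} := by
    rw [mt, mul_inv_eq_iff_eq_mul, Subgroup.mem_centralizer_singleton_iff]
  have h2 : ∀ ζ : Equiv.Perm (Fin (2 * n)),
      (MonoidAlgebra.single ζ (1 : ℂ)).coeff σ = if ζ = σ then 1 else 0 := by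
    intro ζ
    exact Finsupp.single_apply
  rw [Finset.sum_congr rfl fun ζ _ => h2 ζ, Finset.sum_ite_eq']
  apply if_congr _ rfl rfl
  rw [mem_filter, h1]
  simp

lemma coeff_eq {n : ℕ} (k : ℕ) : ∀ (j : ℕ) (σ : Equiv.Perm (Fin (2 * n))),
    (hgen (fun i : Fin n => JM (lo i)) k j * PH n).coeff σ = cM ℂ n k j (mt σ) := by
  induction k with
  | zero =>
    intro j σ
    rw [hgen_zero, one_mul, cM, PH_apply]
  | succ k ihk =>
    intro j
    induction j with
    | zero => intro σ; rw [hgen_succ_zero, zero_mul, cM]; rfl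
    | succ j ihj =>
      intro σ
      rw [hgen_succ, cM, add_mul, MonoidAlgebra.coeff_add, Finsupp.add_apply, ihj]
      congr 1
      by_cases h : j < n
      · rw [dif_pos h, dif_pos (by omega), mul_assoc, JM_mul_apply]
        apply Finset.sum_congr rfl
        intro y _
        rw [ihk, mt_swap]
        rfl
      · rw [dif_neg h, dif_neg (by omega), zero_mul]
        rfl

/-! ### Commutation -/

lemma single_comm_JM {n : ℕ} {z : Fin (2 * n)} {τ : Equiv.Perm (Fin (2 * n))} (h1 : τ z = z)
    (h2 : ∀ y, y < z ↔ τ y < z) : Commute (MonoidAlgebra.single τ (1 : ℂ)) (JM z) := by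
  rw [Commute, SemiconjBy, JM, Finset.mul_sum, Finset.sum_mul]
  apply Finset.sum_equiv τ
  · intro y
    rw [mem_filter, mem_filter]
    simp only [mem_univ, true_and]
    exact h2 y
  · intro y _
    rw [MonoidAlgebra.single_mul_single, MonoidAlgebra.single_mul_single]
    congr 1
    rw [← mul_inv_eq_iff_eq_mul, ← Equiv.swap_apply_apply, h1]

lemma JM_commute_lt {n : ℕ} {x z : Fin (2 * n)} (h : x < z) : Commute (JM x) (JM z) := by
  rw [JM]
  apply Commute.sum_left
  intro a ha
  rw [mem_filter] at ha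
  apply single_comm_JM
  · rw [Equiv.swap_apply_of_ne_of_ne]
    · exact (ha.2.trans h).ne'
    · exact h.ne'
  · intro y
    rcases eq_or_ne y a with rfl | h1
    · rw [Equiv.swap_apply_left]
      exact ⟨fun _ => h, fun _ => ha.2.trans h⟩
    rcases eq_or_ne y x with rfl | h2
    · rw [Equiv.swap_apply_right]
      exact ⟨fun _ => ha.2.trans h, fun _ => h⟩
    rw [Equiv.swap_apply_of_ne_of_ne h1 h2]

lemma JM_commute {n : ℕ} (x z : Fin (2 * n)) : Commute (JM x) (JM z) := by
  rcases lt_trichotomy x z with h | h | h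
  · exact JM_commute_lt h
  · rw [h]
  · exact (JM_commute_lt h).symm

end Pool.Agent.NH68.Wg
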