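import Mathlib

set_option autoImplicit false
set_option linter.unusedSectionVars false

/-!
# Components of a pair of fixed-point-free involutions, and conjugation by a transposition
-/

open Finset

namespace Pool.Agent.NH68.Wg

variable {V : Type*} [Fintype V] [DecidableEq V]

/-- `S` is closed under `e` and `m`. -/
def Closed (e m : Equiv.Perm V) (S : Finset V) : Prop := ∀ x ∈ S, e x ∈ S ∧ m x ∈ S

open Classical in
/-- The component of `x`: the least set containing `x` that is closed under `e` and `m`. -/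
noncomputable def O (e m : Equiv.Perm V) (x : V) : Finset V :=
  Finset.univ.filter fun y => ∀ S : Finset V, x ∈ S → Closed e m S → y ∈ S

/-- fixed-point-free involution -/
structure FPF (e : Equiv.Perm V) : Prop where
  inv : ∀ x, e (e x) = x
  ne : ∀ x, e x ≠ x

section basic

variable {e m : Equiv.Perm V}

lemma mem_O {x y : V} : y ∈ O e m x ↔ ∀ S : Finset V, x ∈ S → Closed e m S → y ∈ S := by
  simp [O]

lemma self_mem (x : V) : x ∈ O e m x := mem_O.mpr fun _ h _ => h

lemma O_closed (x : V) : Closed e m (O e m x) := by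
  intro y hy
  rw [mem_O] at hy
  constructor
  · rw [mem_O]; exact fun S h1 h2 => (h2 y (hy S h1 h2)).1
  · rw [mem_O]; exact fun S h1 h2 => (h2 y (hy S h1 h2)).2

lemma O_subset {x : V} {S : Finset V} (h : x ∈ S) (hS : Closed e m S) : O e m x ⊆ S :=
  fun _ hy => mem_O.mp hy S h hS

lemma compl_closed (he : FPF e) (hm : FPF m) {S : Finset V} (hS : Closed e m S) :
    Closed e m Sᶜ := by
  intro x hx
  rw [mem_compl] at hx
  constructor
  · rw [mem_compl]; intro h; apply hx; rw [← he.inv x]; exact (hS _ h).1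
  · rw [mem_compl]; intro h; apply hx; rw [← hm.inv x]; exact (hS _ h).2

lemma O_eq (he : FPF e) (hm : FPF m) {x y : V} (h : y ∈ O e m x) : O e m y = O e m x := by
  apply Finset.Subset.antisymm (O_subset h (O_closed x))
  have hx : x ∈ O e m y := by
    by_contra hx
    have h1 : O e m x ⊆ (O e m y)ᶜ :=
      O_subset (mem_compl.mpr hx) (compl_closed he hm (O_closed y))
    exact (mem_compl.mp (h1 h)) (self_mem y)
  exact O_subset hx (O_closed y)

lemma even_card (hm : FPF m) {S : Finset V} (hS : ∀ x ∈ S, m x ∈ S) : Even S.card := by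
  rw [← ZMod.natCast_eq_zero_iff_even]
  have : ∑ x ∈ S, (1 : ZMod 2) = 0 := by
    apply Finset.sum_involution (fun x _ => m x)
    · intro _ _; decide
    · intro x _ _ h; exact hm.ne x h
    · intro x hx; exact hS x hx
    · intro x _; exact hm.inv x
  simpa using this

/-- The set of all components. -/
noncomputable def comps (e m : Equiv.Perm V) : Finset (Finset V) := Finset.univ.image (O e m)

lemma O_congr {m' : Equiv.Perm V} (he : FPF e) (hm : FPF m) (hm' : FPF m') {C : Finset V}
    (hC : Closed e m C) (hC' : Closed e m' C) (h : ∀ x, x ∉ C → m x = m' x) {x : V} (hx : x ∉ C) :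
    O e m x = O e m' x := by
  have h1 : O e m' x ⊆ Cᶜ := O_subset (mem_compl.mpr hx) (compl_closed he hm' hC')
  have h2 : O e m x ⊆ Cᶜ := O_subset (mem_compl.mpr hx) (compl_closed he hm hC)
  apply Finset.Subset.antisymm
  · apply O_subset (self_mem x)
    intro y hy
    refine ⟨(O_closed x y hy).1, ?_⟩
    rw [h y (mem_compl.mp (h1 hy))]
    exact (O_closed x y hy).2
  · apply O_subset (self_mem x)
    intro y hy
    refine ⟨(O_closed x y hy).1, ?_⟩
    rw [← h y (mem_compl.mp (h2 hy))]
    exact (O_closed x y hy).2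

lemma comps_eq (e m : Equiv.Perm V) (C : Finset V) :
    comps e m = C.image (O e m) ∪ Cᶜ.image (O e m) := by
  rw [comps, ← Finset.image_union, Finset.union_compl]

lemma comps_disjoint (he : FPF e) (hm : FPF m) {C : Finset V} (hC : Closed e m C) :
    Disjoint (C.image (O e m)) (Cᶜ.image (O e m)) := by
  rw [Finset.disjoint_left]
  intro D h1 h2
  obtain ⟨x, hx, rfl⟩ := Finset.mem_image.mp h1
  obtain ⟨y, hy, hxy⟩ := Finset.mem_image.mp h2
  have h3 : O e m x ⊆ C := O_subset hx hC
  have h4 : O e m y ⊆ Cᶜ := O_subset hy (compl_closed he hm hC)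
  exact (mem_compl.mp (h4 (self_mem y))) (h3 (hxy ▸ self_mem y))

lemma prod_comps {M : Type*} [CommMonoid M] (f : Finset V → M) (he : FPF e) (hm : FPF m)
    {C : Finset V} (hC : Closed e m C) :
    ∏ D ∈ comps e m, f D = (∏ D ∈ C.image (O e m), f D) * ∏ D ∈ Cᶜ.image (O e m), f D := by
  rw [comps_eq e m C, Finset.prod_union (comps_disjoint he hm hC)]

lemma sum_comps {M : Type*} [AddCommMonoid M] (f : Finset V → M) (he : FPF e) (hm : FPF m)
    {C : Finset V} (hC : Closed e m C) :
    ∑ D ∈ comps e m, f D = (∑ D ∈ C.image (O e m), f D) + ∑ D ∈ Cᶜ.image (O e m), f D := by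
  rw [comps_eq e m C, Finset.sum_union (comps_disjoint he hm hC)]

lemma image_compl_congr {m' : Equiv.Perm V} (he : FPF e) (hm : FPF m) (hm' : FPF m')
    {C : Finset V} (hC : Closed e m C) (hC' : Closed e m' C) (h : ∀ x, x ∉ C → m x = m' x) :
    Cᶜ.image (O e m) = Cᶜ.image (O e m') := by
  apply Finset.image_congr
  intro x hx
  exact O_congr he hm hm' hC hC' h (by simpa using hx)

end basic

/-- conjugation of a matching by a transposition -/
def cj (i x₀ : V) (m : Equiv.Perm V) : Equiv.Perm V :=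
  Equiv.swap i x₀ * m * Equiv.swap i x₀

section conj

variable {e m : Equiv.Perm V} {i x₀ : V}

lemma cj_apply (x : V) : cj i x₀ m x = Equiv.swap i x₀ (m (Equiv.swap i x₀ x)) := rfl

lemma cj_fpf (hm : FPF m) : FPF (cj i x₀ m) := by
  constructor
  · intro x
    rw [cj_apply, cj_apply, Equiv.swap_apply_self, hm.inv, Equiv.swap_apply_self]
  · intro x h
    rw [cj_apply] at h
    have h2 : m (Equiv.swap i x₀ x) = Equiv.swap i x₀ x := by
      have := congrArg (Equiv.swap i x₀) h
      rwa [Equiv.swap_apply_self] at this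
    exact hm.ne _ h2

lemma cj_of_ne (hm : FPF m) {x : V} (h1 : x ≠ i) (h2 : x ≠ x₀) (h3 : x ≠ m i) (h4 : x ≠ m x₀) :
    cj i x₀ m x = m x := by
  rw [cj_apply, Equiv.swap_apply_of_ne_of_ne h1 h2, Equiv.swap_apply_of_ne_of_ne]
  · intro h; apply h3; rw [← h, hm.inv]
  · intro h; apply h4; rw [← h, hm.inv]

lemma cj_closed {S : Finset V} (hS : Closed e m S) (hi : i ∈ S) (hx : x₀ ∈ S) :
    Closed e (cj i x₀ m) S := by
  have hsw : ∀ y ∈ S, Equiv.swap i x₀ y ∈ S := by
    intro y hy
    rcases eq_or_ne y i with rfl | h1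
    · rw [Equiv.swap_apply_left]; exact hx
    rcases eq_or_ne y x₀ with rfl | h2
    · rw [Equiv.swap_apply_right]; exact hi
    rw [Equiv.swap_apply_of_ne_of_ne h1 h2]; exact hy
  intro x hxS
  refine ⟨(hS x hxS).1, ?_⟩
  rw [cj_apply]
  exact hsw _ (hS _ (hsw _ hxS)).2

/-- parity argument -/
lemma parity (he : FPF e) (hm : FPF m) {T : Finset V} {y : V} (hy : y ∈ T)
    (h1 : ∀ z ∈ T, e z ∈ T) (h2 : ∀ z ∈ T, z ≠ y → m z ∈ T) : m y ∈ T := by
  by_contra hmy
  have h3 : Even T.card := even_card he h1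
  have h4 : Even (T.erase y).card := by
    apply even_card hm
    intro z hz
    rw [mem_erase] at hz ⊢
    refine ⟨?_, h2 z hz.2 hz.1⟩
    intro h
    apply hmy
    rw [← h, hm.inv]
    exact hz.2
  rw [Finset.card_erase_of_mem hy] at h4
  have : 0 < T.card := Finset.card_pos.mpr ⟨y, hy⟩
  rcases h3 with ⟨a, ha⟩
  rcases h4 with ⟨b, hb⟩
  omega

/-- conjugation by a transposition of points of different components merges them -/
lemma merge (he : FPF e) (hm : FPF m) (hi : i ∉ O e m x₀) :
    O e (cj i x₀ m) x₀ = O e m x₀ ∪ O e m i := by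
  set C := O e m x₀ with hC
  set D := O e m i with hD
  set S := O e (cj i x₀ m) x₀ with hS
  have hx₀D : x₀ ∉ D := by
    intro h
    apply hi
    rw [hC, O_eq he hm h]
    exact self_mem i
  have hxi : x₀ ≠ i := by
    rintro rfl
    exact hi (self_mem _)
  have hCcl : Closed e m C := O_closed x₀
  have hDcl : Closed e m D := O_closed i
  have hScl : Closed e (cj i x₀ m) S := O_closed x₀
  have hxC : x₀ ∈ C := self_mem _
  have hiD : i ∈ D := self_mem _
  have hmiC : m i ∉ C := by
    intro h
    apply hi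
    rw [← hm.inv i]
    exact (hCcl _ h).2
  have hmxD : m x₀ ∉ D := by
    intro h
    apply hx₀D
    rw [← hm.inv x₀]
    exact (hDcl _ h).2
  -- first `C ⊆ S`
  have h1 : m x₀ ∈ C ∩ S := by
    apply parity he hm (mem_inter.mpr ⟨hxC, self_mem _⟩)
    · intro z hz
      rw [mem_inter] at hz ⊢
      exact ⟨(hCcl z hz.1).1, (hScl z hz.2).1⟩
    · intro z hz hzx
      rw [mem_inter] at hz ⊢
      refine ⟨(hCcl z hz.1).2, ?_⟩
      rcases eq_or_ne z (m x₀) with h | h
      · rw [h, hm.inv]; exact self_mem _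
      · rw [← cj_of_ne (i := i) (x₀ := x₀) hm ?_ hzx ?_ h]
        · exact (hScl z hz.2).2
        · rintro rfl; exact hi hz.1
        · rintro rfl; exact hmiC hz.1
  have h2 : C ⊆ S := by
    have : C ⊆ C ∩ S := by
      apply O_subset (mem_inter.mpr ⟨hxC, self_mem _⟩)
      intro z hz
      rw [mem_inter] at hz
      refine ⟨mem_inter.mpr ⟨(hCcl z hz.1).1, (hScl z hz.2).1⟩, ?_⟩
      rcases eq_or_ne z x₀ with h | hzx
      · rw [h]; exact h1
      rcases eq_or_ne z (m x₀) with h | h
      · rw [h, hm.inv]; exact mem_inter.mpr ⟨hxC, self_mem _⟩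
      · rw [mem_inter]
        refine ⟨(hCcl z hz.1).2, ?_⟩
        rw [← cj_of_ne (i := i) (x₀ := x₀) hm ?_ hzx ?_ h]
        · exact (hScl z hz.2).2
        · rintro rfl; exact hi hz.1
        · rintro rfl; exact hmiC hz.1
    exact this.trans inter_subset_right
  have hiS : i ∈ S := by
    have h3 : cj i x₀ m (m x₀) = i := by
      rw [cj_apply, Equiv.swap_apply_of_ne_of_ne (a := i) (b := x₀) (x := m x₀), hm.inv,
        Equiv.swap_apply_right]
      · rintro h
        apply hi
        rw [← h]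
        exact (hCcl _ hxC).2
      · exact hm.ne x₀
    rw [← h3]
    exact (hScl _ (mem_inter.mp h1).2).2
  have h1' : m i ∈ D ∩ S := by
    apply parity he hm (mem_inter.mpr ⟨hiD, hiS⟩)
    · intro z hz
      rw [mem_inter] at hz ⊢
      exact ⟨(hDcl z hz.1).1, (hScl z hz.2).1⟩
    · intro z hz hzx
      rw [mem_inter] at hz ⊢
      refine ⟨(hDcl z hz.1).2, ?_⟩
      rcases eq_or_ne z (m i) with h | h
      · rw [h, hm.inv]; exact hiS
      · rw [← cj_of_ne (i := i) (x₀ := x₀) hm hzx ?_ h ?_]
        · exact (hScl z hz.2).2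
        · rintro rfl; exact hx₀D hz.1
        · rintro rfl; exact hmxD hz.1
  have h2' : D ⊆ S := by
    have : D ⊆ D ∩ S := by
      apply O_subset (mem_inter.mpr ⟨hiD, hiS⟩)
      intro z hz
      rw [mem_inter] at hz
      refine ⟨mem_inter.mpr ⟨(hDcl z hz.1).1, (hScl z hz.2).1⟩, ?_⟩
      rcases eq_or_ne z i with h | hzx
      · rw [h]; exact h1'
      rcases eq_or_ne z (m i) with h | h
      · rw [h, hm.inv]; exact mem_inter.mpr ⟨hiD, hiS⟩
      · rw [mem_inter]
        refine ⟨(hDcl z hz.1).2, ?_⟩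
        rw [← cj_of_ne (i := i) (x₀ := x₀) hm hzx ?_ h ?_]
        · exact (hScl z hz.2).2
        · rintro rfl; exact hx₀D hz.1
        · rintro rfl; exact hmxD hz.1
    exact this.trans inter_subset_right
  apply Finset.Subset.antisymm
  · apply O_subset (mem_union_left _ hxC)
    apply cj_closed _ (mem_union_right _ hiD) (mem_union_left _ hxC)
    intro z hz
    rcases mem_union.mp hz with h | h
    · exact ⟨mem_union_left _ (hCcl z h).1, mem_union_left _ (hCcl z h).2⟩
    · exact ⟨mem_union_right _ (hDcl z h).1, mem_union_right _ (hDcl z h).2⟩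
  · exact union_subset h2 h2'

/-- if `i` is in the component `C` of `x₀`, the new components inside `C` are those of `x₀` and
`i` -/
lemma two (he : FPF e) (hm : FPF m) (hi : i ∈ O e m x₀) (x : V)
    (hx : x ∈ O e m x₀) :
    O e (cj i x₀ m) x = O e (cj i x₀ m) x₀ ∨ O e (cj i x₀ m) x = O e (cj i x₀ m) i := by
  set S := O e (cj i x₀ m) x with hS
  have hScl : Closed e (cj i x₀ m) S := O_closed x
  have hm' := cj_fpf (i := i) (x₀ := x₀) hm
  by_cases h1 : x₀ ∈ S
  · left; exact (O_eq he hm' h1).symm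
  by_cases h2 : i ∈ S
  · right; exact (O_eq he hm' h2).symm
  exfalso
  have h3 : m x₀ ∉ S := by
    intro h
    have h4 := (hScl _ h).2
    have h5 : m x₀ ≠ i := by rintro h5; exact h2 (h5 ▸ h)
    rw [cj_apply, Equiv.swap_apply_of_ne_of_ne h5 (hm.ne x₀), hm.inv, Equiv.swap_apply_right] at h4
    exact h2 h4
  have h3' : m i ∉ S := by
    intro h
    have h4 := (hScl _ h).2
    have h5 : m i ≠ x₀ := by rintro h5; exact h1 (h5 ▸ h)
    rw [cj_apply, Equiv.swap_apply_of_ne_of_ne (hm.ne i) h5, hm.inv, Equiv.swap_apply_left] at h4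
    exact h1 h4
  have h6 : Closed e m S := by
    intro z hz
    refine ⟨(hScl z hz).1, ?_⟩
    rw [← cj_of_ne (i := i) (x₀ := x₀) hm]
    · exact (hScl z hz).2
    · rintro rfl; exact h2 hz
    · rintro rfl; exact h1 hz
    · rintro rfl; exact h3' hz
    · rintro rfl; exact h3 hz
  have h7 : O e m x ⊆ S := O_subset (self_mem x) h6
  rw [O_eq he hm hx] at h7
  exact h1 (h7 (self_mem x₀))

end conj

end Pool.Agent.NH68.Wg
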