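import Pool.Agent.NH68.Wg.Alg

set_option autoImplicit false
set_option linter.unusedSectionVars false
set_option linter.unusedVariables false

/-!
# Coset-types
-/

open Finset

namespace Pool.Agent.NH68.Wg

/-- The graph on `Fin (2n)` with the edges `{2i, 2i+1}` and `{σ(2i), σ(2i+1)}`, `i < n`. -/
def graph {n : ℕ} (σ : Equiv.Perm (Fin (2 * n))) : SimpleGraph (Fin (2 * n)) :=
  SimpleGraph.fromRel fun x y =>
    ∃ i : Fin n, (x = lo i ∧ y = hi i) ∨ (x = σ (lo i) ∧ y = σ (hi i))

open Classical in
/-- The reduced coset-type of `σ`, as a multiset: the numbers `|c|/2 - 1`, `c` running through the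
connected components of the graph of `σ`, with the zeros removed. -/
noncomputable def redType {n : ℕ} (σ : Equiv.Perm (Fin (2 * n))) : Multiset ℕ :=
  ((univ.image (graph σ).connectedComponentMk).val.map fun c => c.supp.ncard / 2 - 1).filter
    fun p => 0 < p

lemma base_lo {n : ℕ} (i : Fin n) : base n (lo i) = hi i := by
  apply Fin.ext
  rw [base_val, bval, lo, hi]
  simp only
  rw [if_pos (by omega)]

lemma base_hi {n : ℕ} (i : Fin n) : base n (hi i) = lo i := by
  rw [← base_lo, (base_fpf n).inv]

lemma lo_or_hi {n : ℕ} (x : Fin (2 * n)) : ∃ i : Fin n, x = lo i ∨ x = hi i := by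
  have := x.isLt
  refine ⟨⟨x.val / 2, by omega⟩, ?_⟩
  rcases Nat.even_or_odd' x.val with ⟨c, hc | hc⟩
  · left
    apply Fin.ext
    rw [lo]
    simp only
    omega
  · right
    apply Fin.ext
    rw [hi]
    simp only
    omega

lemma base_iff {n : ℕ} (x y : Fin (2 * n)) :
    y = base n x ↔ ∃ i : Fin n, (x = lo i ∧ y = hi i) ∨ (y = lo i ∧ x = hi i) := by
  constructor
  · rintro rfl
    obtain ⟨i, rfl | rfl⟩ := lo_or_hi x
    · exact ⟨i, Or.inl ⟨rfl, base_lo i⟩⟩
    · exact ⟨i, Or.inr ⟨base_hi i, rfl⟩⟩
  · rintro ⟨i, ⟨rfl, rfl⟩ | ⟨rfl, rfl⟩⟩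
    · exact (base_lo i).symm
    · exact (base_hi i).symm

lemma mt_iff {n : ℕ} (σ : Equiv.Perm (Fin (2 * n))) (x y : Fin (2 * n)) :
    y = mt σ x ↔ ∃ i : Fin n, (x = σ (lo i) ∧ y = σ (hi i)) ∨ (y = σ (lo i) ∧ x = σ (hi i)) := by
  have h1 : y = mt σ x ↔ σ⁻¹ y = base n (σ⁻¹ x) := by
    change y = σ (base n (σ⁻¹ x)) ↔ _
    exact (Equiv.symm_apply_eq σ).symm
  have h2 : ∀ a b, σ⁻¹ a = b ↔ a = σ b := fun a b => Equiv.symm_apply_eq σ
  rw [h1, base_iff]
  simp only [h2]

lemma adj_iff {n : ℕ} (σ : Equiv.Perm (Fin (2 * n))) (x y : Fin (2 * n)) :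
    (graph σ).Adj x y ↔ y = base n x ∨ y = mt σ x := by
  rw [graph, SimpleGraph.fromRel_adj]
  constructor
  · rintro ⟨_, ⟨i, h | h⟩ | ⟨i, h | h⟩⟩
    · left; rw [base_iff]; exact ⟨i, Or.inl h⟩
    · right; rw [mt_iff]; exact ⟨i, Or.inl h⟩
    · left; rw [base_iff]; exact ⟨i, Or.inr h⟩
    · right; rw [mt_iff]; exact ⟨i, Or.inr h⟩
  · intro h
    refine ⟨?_, ?_⟩
    · rintro rfl
      rcases h with h | h
      · exact (base_fpf n).ne x h.symm
      · exact (mt_fpf σ).ne x h.symm
    · rcases h with h | h
      · rw [base_iff] at h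
        obtain ⟨i, h | h⟩ := h
        · exact Or.inl ⟨i, Or.inl h⟩
        · exact Or.inr ⟨i, Or.inl h⟩
      · rw [mt_iff] at h
        obtain ⟨i, h | h⟩ := h
        · exact Or.inl ⟨i, Or.inr h⟩
        · exact Or.inr ⟨i, Or.inr h⟩

lemma reach_iff {n : ℕ} (σ : Equiv.Perm (Fin (2 * n))) (x y : Fin (2 * n)) :
    (graph σ).Reachable x y ↔ y ∈ O (base n) (mt σ) x := by
  classical
  constructor
  · intro h
    rw [SimpleGraph.reachable_iff_reflTransGen] at h
    induction h with
    | refl => exact self_mem x
    | tail _ h2 ih =>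
      rw [adj_iff] at h2
      rcases h2 with rfl | rfl
      · exact (O_closed x _ ih).1
      · exact (O_closed x _ ih).2
  · intro h
    rw [mem_O] at h
    have h1 := h (univ.filter fun z => (graph σ).Reachable x z) (by simp) (by
      intro z hz
      rw [mem_filter] at hz
      constructor
      · rw [mem_filter]
        refine ⟨mem_univ _, hz.2.trans ?_⟩
        exact ((adj_iff σ _ _).mpr (Or.inl rfl)).reachable
      · rw [mem_filter]
        refine ⟨mem_univ _, hz.2.trans ?_⟩
        exact ((adj_iff σ _ _).mpr (Or.inr rfl)).reachable)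
    rw [mem_filter] at h1
    exact h1.2

lemma redType_eq {n : ℕ} (σ : Equiv.Perm (Fin (2 * n))) :
    redType σ = ((comps (base n) (mt σ)).val.map fun D => D.card / 2 - 1).filter
      fun p => 0 < p := by
  classical
  rw [redType]
  congr 1
  have hsupp : ∀ x, ((graph σ).connectedComponentMk x).supp = ↑(O (base n) (mt σ) x) := by
    intro x
    ext y
    rw [SimpleGraph.ConnectedComponent.mem_supp_iff, SimpleGraph.ConnectedComponent.eq,
      SimpleGraph.reachable_comm, reach_iff, Finset.mem_coe]
  have h1 : comps (base n) (mt σ) =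
      (univ.image (graph σ).connectedComponentMk).image fun c => c.supp.toFinset := by
    rw [comps, Finset.image_image]
    apply Finset.image_congr
    intro x _
    simp only [Function.comp]
    apply Finset.coe_injective
    rw [Set.coe_toFinset, hsupp]
  have hinj : Set.InjOn (fun c : (graph σ).ConnectedComponent => c.supp.toFinset)
      (univ.image (graph σ).connectedComponentMk : Finset _) := by
    intro c _ d _ h
    apply SimpleGraph.ConnectedComponent.supp_injective
    have := congrArg (fun s : Finset (Fin (2 * n)) => (s : Set (Fin (2 * n)))) h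
    simpa using this
  rw [h1, Finset.image_val_of_injOn hinj, Multiset.map_map]
  apply Multiset.map_congr rfl
  intro c _
  simp only [Function.comp]
  rw [Set.ncard_eq_toFinset_card']

lemma sum_filter_pos (s : Multiset ℕ) : (s.filter fun p => 0 < p).sum = s.sum := by
  induction s using Multiset.induction with
  | empty => rfl
  | cons a s ih =>
    rcases Nat.eq_zero_or_pos a with rfl | h
    · rw [Multiset.filter_cons_of_neg _ (lt_irrefl 0), ih, Multiset.sum_cons, zero_add]
    · rw [Multiset.filter_cons_of_pos (p := fun p => 0 < p) _ h, Multiset.sum_cons, Multiset.sum_cons, ih]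

lemma prod_filter_pos {M : Type*} [CommMonoid M] (w : ℕ → M) (h0 : w 0 = 1) (s : Multiset ℕ) :
    ((s.filter fun p => 0 < p).map w).prod = (s.map w).prod := by
  induction s using Multiset.induction with
  | empty => rfl
  | cons a s ih =>
    rcases Nat.eq_zero_or_pos a with rfl | h
    · rw [Multiset.filter_cons_of_neg _ (lt_irrefl 0), ih, Multiset.map_cons, Multiset.prod_cons,
        h0, one_mul]
    · rw [Multiset.filter_cons_of_pos (p := fun p => 0 < p) _ h, Multiset.map_cons, Multiset.prod_cons,
        Multiset.map_cons, Multiset.prod_cons, ih]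

lemma rk_eq {n : ℕ} (σ : Equiv.Perm (Fin (2 * n))) : rk (base n) (mt σ) = (redType σ).sum := by
  rw [redType_eq, sum_filter_pos]
  rfl

lemma wt_eq {n : ℕ} (σ : Equiv.Perm (Fin (2 * n))) {M : Type*} [CommMonoid M] (w : ℕ → M)
    (h0 : w 0 = 1) : wt w (base n) (mt σ) = ((redType σ).map w).prod := by
  rw [redType_eq, prod_filter_pos w h0, Multiset.map_map]
  rfl

lemma good_top {n : ℕ} (m : Equiv.Perm (Fin (2 * n))) : Good n n m := by
  intro x hx
  have := x.isLt
  omega

/-- the main formula: the subleading coefficient is a derivation over the parts -/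
lemma main_general (n : ℕ) (σ : Equiv.Perm (Fin (2 * n))) :
    (hJ n ((redType σ).sum + 1) * PH n).coeff σ = ((redType σ).map (wD ℂ)).prod.snd := by
  rw [hJ_eq, coeff_eq, ← wt_eq σ (wD ℂ) (wD_zero ℂ)]
  exact FC (wD_zero ℂ) (wD_rec ℂ) _ _ _ (le_refl n) (mt_fpf σ) (good_top _) (rk_eq σ)

lemma main {n k : ℕ} (σ : Equiv.Perm (Fin (2 * n)))
    (h : redType σ = ({k} : Multiset ℕ).filter fun p => 0 < p) :
    (hJ n (k + 1) * PH n).coeff σ = 4 ^ k - (Nat.choose (2 * k + 1) k : ℂ) := by
  have h1 : (redType σ).sum = k := by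
    rw [h, sum_filter_pos, Multiset.sum_singleton]
  have h2 := main_general n σ
  rw [h1, h, prod_filter_pos _ (wD_zero ℂ), Multiset.map_singleton, Multiset.prod_singleton,
    wD_snd] at h2
  exact h2

/-! ### Existence -/

/-- a permutation of reduced coset-type `(t)` -/
def tau {n : ℕ} (hn : 0 < n) : ℕ → Equiv.Perm (Fin (2 * n))
  | 0 => 1
  | t + 1 => if h : t + 1 < n then Equiv.swap (lo ⟨t + 1, h⟩) (lo ⟨0, hn⟩) * tau hn t else tau hn t

lemma tau_spec {n : ℕ} (hn : 0 < n) (t : ℕ) (ht : t < n) :
    O (base n) (mt (tau hn t)) (lo ⟨0, hn⟩) =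
      (univ.filter fun x : Fin (2 * n) => x.val < 2 * (t + 1)) ∧ Good n (t + 1) (mt (tau hn t)) := by
  induction t with
  | zero =>
    have h1 : mt (tau hn 0) = base n := by
      rw [mt, tau]
      simp
    rw [h1]
    refine ⟨?_, fun _ _ => rfl⟩
    apply Finset.Subset.antisymm
    · apply O_subset
      · simp [lo]
      · intro x hx
        rw [mem_filter] at hx
        have : (base n x).val < 2 * (0 + 1) := by
          have := hx.2
          rw [base_val, bval]
          split_ifs <;> omega
        exact ⟨by rw [mem_filter]; exact ⟨mem_univ _, this⟩,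
          by rw [mem_filter]; exact ⟨mem_univ _, this⟩⟩
    · intro x hx
      rw [mem_filter] at hx
      have h2 : x = lo ⟨0, hn⟩ ∨ x = base n (lo ⟨0, hn⟩) := by
        have := hx.2
        rw [base_lo]
        rcases (show x.val = 0 ∨ x.val = 1 by omega) with h | h
        · left; apply Fin.ext; rw [h]; rfl
        · right; apply Fin.ext; rw [h]; rfl
      rcases h2 with rfl | rfl
      · exact self_mem _
      · exact (O_closed _ _ (self_mem _)).1
  | succ t ih =>
    obtain ⟨ih1, ih2⟩ := ih (by omega)
    set m := mt (tau hn t) with hm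
    set i := lo ⟨t + 1, ht⟩ with hi'
    set x₀ := lo ⟨0, hn⟩ with hx₀
    have h1 : mt (tau hn (t + 1)) = cj i x₀ m := by
      rw [tau, dif_pos ht, mt_swap]
    have hival : i.val = 2 * (t + 1) := rfl
    have hi : i ∉ O (base n) m x₀ := by
      rw [ih1, mem_filter]
      rintro ⟨_, h⟩
      omega
    have hfpf : FPF m := mt_fpf _
    have hOi : O (base n) m i = {i, base n i} := by
      apply Finset.Subset.antisymm
      · apply O_subset (mem_insert_self _ _)
        intro x hx
        rw [mem_insert, mem_singleton] at hx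
        have hb : (base n i).val = 2 * (t + 1) + 1 := by
          rw [base_val, bval, hival, if_pos (by omega)]
        rcases hx with rfl | rfl
        · refine ⟨by simp, ?_⟩
          rw [ih2 i (by omega)]
          simp
        · rw [ih2 _ (by omega), (base_fpf n).inv]
          simp
      · intro x hx
        rw [mem_insert, mem_singleton] at hx
        rcases hx with rfl | rfl
        · exact self_mem _
        · exact (O_closed _ _ (self_mem _)).1
    rw [h1]
    constructor
    · rw [merge (base_fpf n) hfpf hi, hOi, ih1]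
      ext x
      simp only [mem_union, mem_filter, mem_univ, true_and, mem_insert, mem_singleton]
      have hb : base n i = Pool.Agent.NH68.Wg.hi ⟨t + 1, ht⟩ := base_lo _
      have hbv : (base n i).val = 2 * (t + 1) + 1 := by rw [hb]; rfl
      constructor
      · rintro (h | rfl | rfl)
        · omega
        · omega
        · omega
      · intro h
        rcases (show x.val < 2 * (t + 1) ∨ x.val = 2 * (t + 1) ∨ x.val = 2 * (t + 1) + 1 by omega)
          with h | h | h
        · exact Or.inl h
        · exact Or.inr (Or.inl (Fin.ext (h.trans hival.symm)))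
        · exact Or.inr (Or.inr (Fin.ext (h.trans hbv.symm)))
    · intro x hx
      have hx1 : x ≠ i := by rintro rfl; omega
      have hx0 : x₀.val = 0 := rfl
      have hx2 : x ≠ x₀ := by rintro rfl; omega
      have hbx : 2 * (t + 1 + 1) ≤ (base n x).val := by
        rw [base_val, bval]
        split_ifs <;> omega
      rw [cj_apply, Equiv.swap_apply_of_ne_of_ne hx1 hx2, ih2 x (by omega),
        Equiv.swap_apply_of_ne_of_ne]
      · intro h
        have := congrArg Fin.val h
        omega
      · intro h
        have := congrArg Fin.val h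
        omega

lemma exists_redType {n k : ℕ} (h : k < n) :
    ∃ σ : Equiv.Perm (Fin (2 * n)), redType σ = ({k} : Multiset ℕ).filter fun p => 0 < p := by
  classical
  have hn : 0 < n := by omega
  refine ⟨tau hn k, ?_⟩
  obtain ⟨h1, h2⟩ := tau_spec hn k h
  set m := mt (tau hn k) with hm
  have hfpf : FPF m := mt_fpf _
  set C := O (base n) m (lo ⟨0, hn⟩) with hC
  have hcard : C.card / 2 - 1 = k := by
    rw [h1]
    have : (univ.filter fun x : Fin (2 * n) => x.val < 2 * (k + 1)).card = 2 * (k + 1) := by
      rw [Fin.card_filter_val_lt]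
      omega
    rw [this]
    omega
  have hcomp : (comps (base n) m).filter (fun D => 0 < D.card / 2 - 1) =
      ({C} : Finset (Finset (Fin (2 * n)))).filter (fun D => 0 < D.card / 2 - 1) := by
    ext D
    rw [mem_filter, mem_filter, mem_singleton]
    constructor
    · rintro ⟨h3, h4⟩
      refine ⟨?_, h4⟩
      obtain ⟨x, _, rfl⟩ := mem_image.mp h3
      by_cases hx : x.val < 2 * (k + 1)
      · apply O_eq (base_fpf n) hfpf
        rw [← hC, h1, mem_filter]
        exact ⟨mem_univ _, hx⟩
      · exfalso
        have h5 : len (base n) m x = 1 := (len_one_iff (base_fpf n) hfpf).mpr (h2 x (by omega))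
        rw [card_O (base_fpf n) hfpf, h5] at h4
        omega
    · rintro ⟨rfl, h4⟩
      exact ⟨mem_image_of_mem _ (mem_univ _), h4⟩
  rw [redType_eq, Multiset.filter_map]
  have h6 : Multiset.filter ((fun p => 0 < p) ∘ fun D : Finset (Fin (2 * n)) => D.card / 2 - 1)
      (comps (base n) m).val = ((comps (base n) m).filter (fun D => 0 < D.card / 2 - 1)).val := rfl
  rw [h6, hcomp]
  change Multiset.map _ (Multiset.filter (fun D => 0 < D.card / 2 - 1) {C}) = _
  rw [Multiset.filter_singleton, Multiset.filter_singleton, hcard]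
  split_ifs
  · rw [Multiset.map_singleton, hcard]
  · rfl

end Pool.Agent.NH68.Wg
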