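import Pool.Agent.NH68.Wg.Comp

set_option autoImplicit false
set_option linter.unusedSectionVars false
set_option linter.unusedVariables false

/-!
# The component of a point, and what conjugation by a transposition does to it
-/

open Finset

namespace Pool.Agent.NH68.Wg

variable {V : Type*} [Fintype V] [DecidableEq V]

section

variable (e m : Equiv.Perm V) (x₀ : V)

/-- the points `x₀, em x₀, (em)² x₀, …` -/
def u (s : ℕ) : V := ((e * m) ^ s) x₀

/-- the points `m x₀, m em x₀, …` -/
def v (s : ℕ) : V := m (u e m x₀ s)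

/-- the length of the cycle -/
noncomputable def len : ℕ := Function.minimalPeriod (e * m) x₀

lemma len_pos : 0 < len e m x₀ := by
  apply Function.IsPeriodicPt.minimalPeriod_pos (n := orderOf (e * m)) (orderOf_pos (e * m))
  rw [Function.IsPeriodicPt, Function.IsFixedPt, ← Equiv.Perm.coe_pow, pow_orderOf_eq_one]
  rfl

lemma u_zero : u e m x₀ 0 = x₀ := rfl

lemma u_len : u e m x₀ (len e m x₀) = x₀ := by
  rw [u, Equiv.Perm.coe_pow]
  exact Function.iterate_minimalPeriod

lemma u_succ (s : ℕ) : u e m x₀ (s + 1) = e (v e m x₀ s) := by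
  rw [u, pow_succ']
  rfl

lemma u_inj {s t : ℕ} (hs : s < len e m x₀) (ht : t < len e m x₀)
    (h : u e m x₀ s = u e m x₀ t) : s = t := by
  rw [u, u, Equiv.Perm.coe_pow, Equiv.Perm.coe_pow] at h
  exact Function.iterate_injOn_Iio_minimalPeriod hs ht h

lemma v_inj {s t : ℕ} (hs : s < len e m x₀) (ht : t < len e m x₀)
    (h : v e m x₀ s = v e m x₀ t) : s = t :=
  u_inj e m x₀ hs ht (m.injective h)

variable {e m x₀}

lemma e_v (s : ℕ) : e (v e m x₀ s) = u e m x₀ (s + 1) := (u_succ e m x₀ s).symm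

lemma e_u_succ (he : FPF e) (s : ℕ) : e (u e m x₀ (s + 1)) = v e m x₀ s := by
  rw [← e_v, he.inv]

lemma e_x₀ (he : FPF e) : e x₀ = v e m x₀ (len e m x₀ - 1) := by
  have h := len_pos e m x₀
  have h2 : len e m x₀ = (len e m x₀ - 1) + 1 := by omega
  rw [← e_u_succ he, ← h2, u_len]

lemma m_u (s : ℕ) : m (u e m x₀ s) = v e m x₀ s := rfl

lemma m_v (hm : FPF m) (s : ℕ) : m (v e m x₀ s) = u e m x₀ s := hm.inv _

lemma pow_ne (he : FPF e) (hm : FPF m) (d : ℕ) : ∀ y : V, ((e * m) ^ d) y ≠ m y := by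
  induction d using Nat.twoStepInduction with
  | zero => intro y h; exact hm.ne y h.symm
  | one =>
    intro y h
    rw [pow_one] at h
    exact he.ne (m y) h
  | more d ih _ =>
    intro y h
    apply ih ((e * m) y)
    have h2 : (e * m) (((e * m) ^ d) ((e * m) y)) = m y := by
      rw [← h, pow_succ', pow_succ]
      rfl
    have h3 : m (((e * m) ^ d) ((e * m) y)) = e (m y) := by
      rw [← h2]
      change _ = e (e (m _))
      rw [he.inv]
    change _ = m (e (m y))
    rw [← h3, hm.inv]

lemma u_ne_v (he : FPF e) (hm : FPF m) (s t : ℕ) : u e m x₀ s ≠ v e m x₀ t := by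
  intro h
  rcases le_total t s with h1 | h1
  · apply pow_ne he hm (s - t) (u e m x₀ t)
    rw [m_u, ← h, u, u, ← Equiv.Perm.mul_apply, ← pow_add]
    congr 2
    omega
  · apply pow_ne he hm (t - s) (u e m x₀ s)
    have h2 : m (u e m x₀ s) = u e m x₀ t := by rw [h, m_v hm]
    rw [h2, u, u, ← Equiv.Perm.mul_apply, ← pow_add]
    congr 2
    omega

lemma u_mem (S : Finset V) (hx : x₀ ∈ S) (hS : Closed e m S) (s : ℕ) : u e m x₀ s ∈ S := by
  induction s with
  | zero => exact hx
  | succ s ih =>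
    rw [u_succ]
    exact (hS _ (hS _ ih).2).1

lemma v_mem (S : Finset V) (hx : x₀ ∈ S) (hS : Closed e m S) (s : ℕ) : v e m x₀ s ∈ S :=
  (hS _ (u_mem S hx hS s)).2

/-- the points of the component -/
lemma O_eq_image (he : FPF e) (hm : FPF m) :
    O e m x₀ = (range (len e m x₀)).image (u e m x₀) ∪ (range (len e m x₀)).image (v e m x₀) := by
  have hl := len_pos e m x₀
  apply Finset.Subset.antisymm
  · apply O_subset
    · apply mem_union_left
      rw [mem_image]
      exact ⟨0, mem_range.mpr hl, rfl⟩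
    · intro x hx
      rcases mem_union.mp hx with h | h
      · obtain ⟨s, hs, rfl⟩ := mem_image.mp h
        refine ⟨?_, mem_union_right _ (mem_image.mpr ⟨s, hs, rfl⟩)⟩
        apply mem_union_right
        rw [mem_image]
        rw [mem_range] at hs
        rcases Nat.eq_zero_or_pos s with rfl | h1
        · exact ⟨len e m x₀ - 1, mem_range.mpr (by omega), by rw [u_zero, ← e_x₀ he]⟩
        · refine ⟨s - 1, mem_range.mpr (by omega), ?_⟩
          rw [← e_u_succ he]
          congr 2
          omega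
      · obtain ⟨s, hs, rfl⟩ := mem_image.mp h
        refine ⟨?_, mem_union_left _ (mem_image.mpr ⟨s, hs, (m_v hm s).symm⟩)⟩
        apply mem_union_left
        rw [mem_image]
        rw [mem_range] at hs
        rw [e_v]
        rcases Nat.lt_or_ge (s + 1) (len e m x₀) with h1 | h1
        · exact ⟨s + 1, mem_range.mpr h1, rfl⟩
        · have : s + 1 = len e m x₀ := by omega
          rw [this, u_len]
          exact ⟨0, mem_range.mpr hl, rfl⟩
  · intro x hx
    rcases mem_union.mp hx with h | h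
    · obtain ⟨s, _, rfl⟩ := mem_image.mp h
      exact u_mem _ (self_mem _) (O_closed _) s
    · obtain ⟨s, _, rfl⟩ := mem_image.mp h
      exact v_mem _ (self_mem _) (O_closed _) s

lemma disj_uv (he : FPF e) (hm : FPF m) (A B : Finset ℕ) :
    Disjoint (A.image (u e m x₀)) (B.image (v e m x₀)) := by
  rw [Finset.disjoint_left]
  intro x h1 h2
  obtain ⟨s, _, rfl⟩ := mem_image.mp h1
  obtain ⟨t, _, ht⟩ := mem_image.mp h2
  exact u_ne_v he hm s t ht.symm

lemma card_uv (he : FPF e) (hm : FPF m) (A B : Finset ℕ) (hA : A ⊆ range (len e m x₀))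
    (hB : B ⊆ range (len e m x₀)) :
    (A.image (u e m x₀) ∪ B.image (v e m x₀)).card = A.card + B.card := by
  rw [card_union_of_disjoint (disj_uv he hm A B), card_image_of_injOn, card_image_of_injOn]
  · intro s hs t ht h
    exact v_inj e m x₀ (mem_range.mp (hB hs)) (mem_range.mp (hB ht)) h
  · intro s hs t ht h
    exact u_inj e m x₀ (mem_range.mp (hA hs)) (mem_range.mp (hA ht)) h

lemma card_O (he : FPF e) (hm : FPF m) : (O e m x₀).card = 2 * len e m x₀ := by
  rw [O_eq_image he hm, card_uv he hm _ _ (Subset.refl _) (Subset.refl _), card_range]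
  omega

/-- the new component of `x₀` when `i = u s` -/
noncomputable def A1 (e m : Equiv.Perm V) (x₀ : V) (s : ℕ) : Finset V :=
  (insert 0 (Ioo s (len e m x₀))).image (u e m x₀) ∪ (Ico s (len e m x₀)).image (v e m x₀)

/-- the new component of `i = u s` -/
noncomputable def A2 (e m : Equiv.Perm V) (x₀ : V) (s : ℕ) : Finset V :=
  (Icc 1 s).image (u e m x₀) ∪ (range s).image (v e m x₀)

lemma A_union (he : FPF e) (hm : FPF m) {s : ℕ} (h1 : 1 ≤ s) (h2 : s < len e m x₀) :
    A1 e m x₀ s ∪ A2 e m x₀ s = O e m x₀ := by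
  rw [O_eq_image he hm, A1, A2, union_union_union_comm, ← image_union, ← image_union]
  congr 2
  · ext t; simp only [mem_union, mem_insert, mem_Ioo, mem_Icc, mem_range]; omega
  · ext t; simp only [mem_union, mem_Ico, mem_range]; omega

lemma A_disj (he : FPF e) (hm : FPF m) {s : ℕ} (h1 : 1 ≤ s) (h2 : s < len e m x₀) :
    Disjoint (A1 e m x₀ s) (A2 e m x₀ s) := by
  rw [Finset.disjoint_left]
  intro x hx hy
  rcases mem_union.mp hx with h | h <;> rcases mem_union.mp hy with h' | h' <;>
    obtain ⟨t, ht, rfl⟩ := mem_image.mp h <;> obtain ⟨t', ht', htt⟩ := mem_image.mp h'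
  · simp only [mem_insert, mem_Ioo] at ht
    simp only [mem_Icc] at ht'
    have := u_inj e m x₀ (by omega) (by omega) htt
    omega
  · exact u_ne_v he hm _ _ htt.symm
  · exact u_ne_v he hm _ _ htt
  · simp only [mem_Ico] at ht
    simp only [mem_range] at ht'
    have := v_inj e m x₀ (by omega) (by omega) htt
    omega

lemma card_A1 (he : FPF e) (hm : FPF m) {s : ℕ} (h2 : s < len e m x₀) :
    (A1 e m x₀ s).card = 2 * (len e m x₀ - s) := by
  rw [A1, card_uv he hm, card_insert_of_notMem, Nat.card_Ioo, Nat.card_Ico]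
  · omega
  · simp
  · intro t ht
    simp only [mem_insert, mem_Ioo] at ht
    rw [mem_range]
    omega
  · intro t ht
    simp only [mem_Ico] at ht
    rw [mem_range]
    omega

lemma card_A2 (he : FPF e) (hm : FPF m) {s : ℕ} (h2 : s < len e m x₀) :
    (A2 e m x₀ s).card = 2 * s := by
  rw [A2, card_uv he hm, Nat.card_Icc, card_range]
  · omega
  · intro t ht
    simp only [mem_Icc] at ht
    rw [mem_range]
    omega
  · intro t ht
    simp only [mem_range] at ht
    rw [mem_range]
    omega

/-- values of the conjugated matching -/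
lemma cj_u (he : FPF e) (hm : FPF m) {s t : ℕ} (h1 : 1 ≤ s) (h2 : s < len e m x₀)
    (h3 : 1 ≤ t) (h4 : t < len e m x₀) (hst : t ≠ s) :
    cj (u e m x₀ s) x₀ m (u e m x₀ t) = v e m x₀ t := by
  rw [cj_of_ne hm, m_u]
  · intro h; exact hst (u_inj e m x₀ h4 h2 h)
  · intro h
    have := u_inj e m x₀ h4 (len_pos e m x₀) (h.trans (u_zero e m x₀).symm)
    omega
  · exact u_ne_v he hm _ _
  · exact u_ne_v he hm t 0

lemma cj_u' (he : FPF e) (hm : FPF m) {s t : ℕ} (h2 : s < len e m x₀)
    (h3 : 1 ≤ t) (h4 : t < len e m x₀) (hst : t ≠ s) :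
    cj (u e m x₀ s) x₀ m (v e m x₀ t) = u e m x₀ t := by
  rw [cj_of_ne hm, m_v hm]
  · exact (u_ne_v he hm _ _).symm
  · exact (u_ne_v he hm 0 t).symm
  · intro h; exact hst (v_inj e m x₀ h4 h2 h)
  · intro h
    have := v_inj e m x₀ h4 (len_pos e m x₀) (h.trans (m_u (e := e) (m := m) (x₀ := x₀) 0))
    omega

lemma cj_x₀ (he : FPF e) (hm : FPF m) {s : ℕ} :
    cj (u e m x₀ s) x₀ m x₀ = v e m x₀ s := by
  rw [cj_apply, Equiv.swap_apply_right, m_u, Equiv.swap_apply_of_ne_of_ne]
  · exact (u_ne_v he hm _ _).symm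
  · exact (u_ne_v he hm 0 s).symm

lemma cj_vs (hm : FPF m) {s : ℕ} (he : FPF e) :
    cj (u e m x₀ s) x₀ m (v e m x₀ s) = x₀ := by
  have := (cj_fpf (i := u e m x₀ s) (x₀ := x₀) hm).inv x₀
  rwa [cj_x₀ he hm] at this

lemma cj_us (he : FPF e) (hm : FPF m) {s : ℕ} :
    cj (u e m x₀ s) x₀ m (u e m x₀ s) = v e m x₀ 0 := by
  rw [cj_apply, Equiv.swap_apply_left, Equiv.swap_apply_of_ne_of_ne]
  · rfl
  · exact (u_ne_v he hm s 0).symm
  · exact (u_ne_v he hm 0 0).symm

lemma cj_v0 (he : FPF e) (hm : FPF m) {s : ℕ} :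
    cj (u e m x₀ s) x₀ m (v e m x₀ 0) = u e m x₀ s := by
  have := (cj_fpf (i := u e m x₀ s) (x₀ := x₀) hm).inv (u e m x₀ s)
  rwa [cj_us he hm] at this

lemma mem_A1u {s t : ℕ} (h : t = 0 ∨ (s < t ∧ t < len e m x₀)) : u e m x₀ t ∈ A1 e m x₀ s :=
  mem_union_left _ (mem_image.mpr ⟨t, by simp only [mem_insert, mem_Ioo]; omega, rfl⟩)

lemma mem_A1v {s t : ℕ} (h : s ≤ t ∧ t < len e m x₀) : v e m x₀ t ∈ A1 e m x₀ s :=
  mem_union_right _ (mem_image.mpr ⟨t, by simp only [mem_Ico]; omega, rfl⟩)

lemma mem_A2u {s t : ℕ} (h : 1 ≤ t ∧ t ≤ s) : u e m x₀ t ∈ A2 e m x₀ s :=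
  mem_union_left _ (mem_image.mpr ⟨t, by simp only [mem_Icc]; omega, rfl⟩)

lemma mem_A2v {s t : ℕ} (h : t < s) : v e m x₀ t ∈ A2 e m x₀ s :=
  mem_union_right _ (mem_image.mpr ⟨t, by simp only [mem_range]; omega, rfl⟩)

lemma A1_closed (he : FPF e) (hm : FPF m) {s : ℕ} (h1 : 1 ≤ s) (h2 : s < len e m x₀) :
    Closed e (cj (u e m x₀ s) x₀ m) (A1 e m x₀ s) := by
  have hl := len_pos e m x₀
  intro x hx
  rcases mem_union.mp hx with h | h
  · obtain ⟨t, ht, rfl⟩ := mem_image.mp h
    simp only [mem_insert, mem_Ioo] at ht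
    rcases ht with rfl | ht
    · rw [u_zero, e_x₀ he, cj_x₀ he hm]
      exact ⟨mem_A1v (by omega), mem_A1v (by omega)⟩
    · rw [cj_u he hm h1 h2 (by omega) (by omega) (by omega)]
      obtain ⟨t', rfl⟩ : ∃ t', t = t' + 1 := ⟨t - 1, by omega⟩
      rw [e_u_succ he]
      exact ⟨mem_A1v (by omega), mem_A1v (by omega)⟩
  · obtain ⟨t, ht, rfl⟩ := mem_image.mp h
    simp only [mem_Ico] at ht
    constructor
    · rw [e_v]
      rcases Nat.lt_or_ge (t + 1) (len e m x₀) with h3 | h3
      · exact mem_A1u (by omega)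
      · have : t + 1 = len e m x₀ := by omega
        rw [this, u_len, ← u_zero e m x₀]
        exact mem_A1u (by omega)
    · rcases eq_or_ne t s with rfl | h3
      · rw [cj_vs hm he, ← u_zero e m x₀]
        exact mem_A1u (by omega)
      · rw [cj_u' he hm h2 (by omega) (by omega) h3]
        exact mem_A1u (by omega)

lemma A2_closed (he : FPF e) (hm : FPF m) {s : ℕ} (h1 : 1 ≤ s) (h2 : s < len e m x₀) :
    Closed e (cj (u e m x₀ s) x₀ m) (A2 e m x₀ s) := by
  intro x hx
  rcases mem_union.mp hx with h | h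
  · obtain ⟨t, ht, rfl⟩ := mem_image.mp h
    simp only [mem_Icc] at ht
    constructor
    · obtain ⟨t', rfl⟩ : ∃ t', t = t' + 1 := ⟨t - 1, by omega⟩
      rw [e_u_succ he]
      exact mem_A2v (by omega)
    · rcases eq_or_ne t s with rfl | h3
      · rw [cj_us he hm]
        exact mem_A2v (by omega)
      · rw [cj_u he hm h1 h2 (by omega) (by omega) h3]
        exact mem_A2v (by omega)
  · obtain ⟨t, ht, rfl⟩ := mem_image.mp h
    simp only [mem_range] at ht
    constructor
    · rw [e_v]
      exact mem_A2u (by omega)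
    · rcases Nat.eq_zero_or_pos t with rfl | h3
      · rw [cj_v0 he hm]
        exact mem_A2u (by omega)
      · rw [cj_u' he hm h2 (by omega) (by omega) (by omega)]
        exact mem_A2u (by omega)

/-- the two new components in the case of a split -/
lemma split (he : FPF e) (hm : FPF m) {s : ℕ} (h1 : 1 ≤ s) (h2 : s < len e m x₀) :
    O e (cj (u e m x₀ s) x₀ m) x₀ = A1 e m x₀ s ∧
      O e (cj (u e m x₀ s) x₀ m) (u e m x₀ s) = A2 e m x₀ s := by
  set i := u e m x₀ s with hi
  have hiC : i ∈ O e m x₀ := u_mem _ (self_mem _) (O_closed _) s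
  have hs1 : O e (cj i x₀ m) x₀ ⊆ A1 e m x₀ s :=
    O_subset (by rw [← u_zero e m x₀]; exact mem_A1u (by omega)) (A1_closed he hm h1 h2)
  have hs2 : O e (cj i x₀ m) i ⊆ A2 e m x₀ s :=
    O_subset (mem_A2u (by omega)) (A2_closed he hm h1 h2)
  have hd := A_disj he hm h1 h2
  have hun := A_union he hm h1 h2
  refine ⟨Subset.antisymm hs1 ?_, Subset.antisymm hs2 ?_⟩
  · intro x hx
    have hxC : x ∈ O e m x₀ := by rw [← hun]; exact mem_union_left _ hx
    rcases two he hm hiC x hxC with h | h
    · rw [← h]; exact self_mem x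
    · exfalso
      have : x ∈ A2 e m x₀ s := hs2 (h ▸ self_mem x)
      exact (Finset.disjoint_left.mp hd) hx this
  · intro x hx
    have hxC : x ∈ O e m x₀ := by rw [← hun]; exact mem_union_right _ hx
    rcases two he hm hiC x hxC with h | h
    · exfalso
      have : x ∈ A1 e m x₀ s := hs1 (h ▸ self_mem x)
      exact (Finset.disjoint_left.mp hd) this hx
    · rw [← h]; exact self_mem x

/-- in the other case the component of `x₀` stays the same set -/
lemma twist (he : FPF e) (hm : FPF m) {s : ℕ} (h2 : s < len e m x₀) :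
    O e (cj (v e m x₀ s) x₀ m) x₀ = O e m x₀ := by
  set i := v e m x₀ s with hi
  set C := O e m x₀ with hC
  have hiC : i ∈ C := v_mem _ (self_mem _) (O_closed _) s
  have hix : i ≠ x₀ := (u_ne_v he hm 0 s).symm
  have hm' := cj_fpf (i := i) (x₀ := x₀) hm
  have hC' : Closed e (cj i x₀ m) C := cj_closed (O_closed x₀) hiC (self_mem x₀)
  have hsub : O e (cj i x₀ m) x₀ ⊆ C := O_subset (self_mem x₀) hC'
  have key : i ∈ O e (cj i x₀ m) x₀ → O e (cj i x₀ m) x₀ = C := by
    intro h
    apply Subset.antisymm hsub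
    intro x hx
    rcases two he hm hiC x hx with h1 | h1
    · rw [← h1]; exact self_mem x
    · rw [← O_eq he hm' h, ← h1]; exact self_mem x
  apply key
  by_contra hcon
  set S := O e (cj i x₀ m) x₀ with hS
  have hScl : Closed e (cj i x₀ m) S := O_closed x₀
  have hxS : x₀ ∈ S := self_mem x₀
  rcases Nat.eq_zero_or_pos s with h0 | hs
  · -- `i = m x₀`: nothing changes
    have hmx : m x₀ = i := by rw [hi, h0]; rfl
    have h3 : cj i x₀ m = m := by
      ext x
      rcases eq_or_ne x i with rfl | h4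
      · rw [cj_apply, Equiv.swap_apply_left, hmx, Equiv.swap_apply_left, ← hmx, hm.inv]
      rcases eq_or_ne x x₀ with rfl | h5
      · rw [cj_apply, Equiv.swap_apply_right, ← hmx, hm.inv, Equiv.swap_apply_right]
      · rw [cj_of_ne hm h4 h5]
        · rw [← hmx, hm.inv]; exact h5
        · rw [hmx]; exact h4
    apply hcon
    rw [hS, h3]
    exact hiC
  · -- bipartite counting
    set T := S ∩ (range (len e m x₀)).image (u e m x₀) with hT
    set T' := S ∩ (range (len e m x₀)).image (v e m x₀) with hT'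
    have hl := len_pos e m x₀
    have hTT : T.card ≤ T'.card := by
      apply Finset.card_le_card_of_injOn e
      · intro x hx
        rw [hT, mem_coe, mem_inter, mem_image] at hx
        obtain ⟨hxS', t, ht, rfl⟩ := hx
        rw [hT', mem_coe, mem_inter, mem_image]
        refine ⟨(hScl _ hxS').1, ?_⟩
        rw [mem_range] at ht
        rcases Nat.eq_zero_or_pos t with rfl | h3
        · exact ⟨len e m x₀ - 1, mem_range.mpr (by omega), by rw [u_zero, ← e_x₀ he]⟩
        · obtain ⟨t', rfl⟩ : ∃ t', t = t' + 1 := ⟨t - 1, by omega⟩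
          exact ⟨t', mem_range.mpr (by omega), (e_u_succ he t').symm⟩
      · exact e.injective.injOn
    have hcx : cj i x₀ m x₀ = u e m x₀ s := by
      rw [cj_apply, Equiv.swap_apply_right, hi, m_v hm, Equiv.swap_apply_of_ne_of_ne]
      · exact u_ne_v he hm _ _
      · intro h
        have := u_inj e m x₀ h2 hl (h.trans (u_zero e m x₀).symm)
        omega
    have husS : u e m x₀ s ∈ S := by rw [← hcx]; exact (hScl _ hxS).2
    have hv0 : v e m x₀ 0 ∉ S := by
      intro h
      apply hcon
      have h3 : cj i x₀ m (v e m x₀ 0) = i := by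
        rw [cj_apply, Equiv.swap_apply_of_ne_of_ne (x := v e m x₀ 0), m_v hm, u_zero,
          Equiv.swap_apply_right]
        · intro h4
          have := v_inj e m x₀ hl h2 h4
          omega
        · exact (u_ne_v he hm 0 0).symm
      rw [← h3]
      exact (hScl _ h).2
    have hlt : T'.card ≤ (T.erase x₀).card := by
      apply Finset.card_le_card_of_injOn (cj i x₀ m)
      · intro x hx
        rw [hT', mem_coe, mem_inter, mem_image] at hx
        obtain ⟨hxS', t, ht, rfl⟩ := hx
        rw [mem_range] at ht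
        have ht0 : t ≠ 0 := by rintro rfl; exact hv0 hxS'
        have hts : t ≠ s := by rintro rfl; exact hcon hxS'
        have h3 : cj i x₀ m (v e m x₀ t) = u e m x₀ t := by
          rw [cj_of_ne hm, m_v hm]
          · intro h4; exact hts (v_inj e m x₀ ht h2 h4)
          · exact (u_ne_v he hm 0 t).symm
          · rw [hi, m_v hm]; exact (u_ne_v he hm _ _).symm
          · intro h4; exact ht0 (v_inj e m x₀ ht hl h4)
        rw [mem_coe, mem_erase, h3]
        refine ⟨?_, ?_⟩
        · intro h4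
          have := u_inj e m x₀ ht hl (h4.trans (u_zero e m x₀).symm)
          exact ht0 this
        · rw [hT, mem_inter, mem_image]
          refine ⟨?_, t, mem_range.mpr ht, rfl⟩
          rw [← h3]
          exact (hScl _ hxS').2
      · exact (cj i x₀ m).injective.injOn
    have hxT : x₀ ∈ T := by
      rw [hT, mem_inter, mem_image]
      exact ⟨hxS, 0, mem_range.mpr hl, rfl⟩
    rw [card_erase_of_mem hxT] at hlt
    have : 0 < T.card := card_pos.mpr ⟨x₀, hxT⟩
    omega

end

end Pool.Agent.NH68.Wg
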