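import Pool.Agent.NH68.Wg.Wt

set_option autoImplicit false
set_option linter.unusedSectionVars false
set_option linter.unusedVariables false

/-!
# The recursion on matchings
-/

open Finset

namespace Pool.Agent.NH68.Wg

/-- the value of the partner of `x` -/
def bval (x : ℕ) : ℕ := if x % 2 = 0 then x + 1 else x - 1

/-- The fixed-point-free involution `(0 1)(2 3)…(2n-2 2n-1)` of `Fin (2n)`. -/
def base (n : ℕ) : Equiv.Perm (Fin (2 * n)) where
  toFun x := ⟨bval x, by unfold bval; split_ifs <;> omega⟩
  invFun x := ⟨bval x, by unfold bval; split_ifs <;> omega⟩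
  left_inv x := by
    apply Fin.ext
    simp only [bval]
    split_ifs <;> omega
  right_inv x := by
    apply Fin.ext
    simp only [bval]
    split_ifs <;> omega

lemma base_val {n : ℕ} (x : Fin (2 * n)) : (base n x).val = bval x.val := rfl

lemma base_fpf (n : ℕ) : FPF (base n) where
  inv x := (base n).left_inv x
  ne x h := by
    have := congrArg Fin.val h
    rw [base_val, bval] at this
    split_ifs at this <;> omega

section

variable {R : Type*} [CommRing R] {n : ℕ}

open Classical in
/-- the coefficients, as a function on matchings -/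
noncomputable def cM (R : Type*) [CommRing R] (n : ℕ) : ℕ → ℕ → Equiv.Perm (Fin (2 * n)) → R
  | 0, _, m => if m = base n then 1 else 0
  | _ + 1, 0, _ => 0
  | k + 1, j + 1, m => cM R n (k + 1) j m +
      if h : 2 * j < 2 * n then
        ∑ y ∈ univ.filter (fun y : Fin (2 * n) => y < ⟨2 * j, h⟩), cM R n k (j + 1) (cj y ⟨2 * j, h⟩ m)
      else 0

/-- `m` agrees with the base matching at and above `2j` -/
def Good (n j : ℕ) (m : Equiv.Perm (Fin (2 * n))) : Prop :=
  ∀ x : Fin (2 * n), 2 * j ≤ x.val → m x = base n x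

lemma Good.succ {j : ℕ} {m : Equiv.Perm (Fin (2 * n))} (h : Good n j m) : Good n (j + 1) m :=
  fun x hx => h x (by omega)

lemma cj_cj (V : Type*) [DecidableEq V] (i x : V) (m : Equiv.Perm V) : cj i x (cj i x m) = m := by
  ext y
  simp [cj]

lemma Good.cj {j : ℕ} {m : Equiv.Perm (Fin (2 * n))} (hg : Good n (j + 1) m)
    {h : 2 * j < 2 * n} {y : Fin (2 * n)} (hy : y < ⟨2 * j, h⟩) :
    Good n (j + 1) (cj y ⟨2 * j, h⟩ m) := by
  intro x hx
  have hy' : y.val < 2 * j := hy
  have h1 : x ≠ y := by rintro rfl; omega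
  have h2 : x ≠ ⟨2 * j, h⟩ := by
    intro h3
    have := congrArg Fin.val h3
    simp only at this
    omega
  rw [cj_apply, Equiv.swap_apply_of_ne_of_ne h1 h2, hg x hx, Equiv.swap_apply_of_ne_of_ne]
  · intro h3
    have := congrArg Fin.val h3
    rw [base_val, bval] at this
    split_ifs at this <;> omega
  · intro h3
    have := congrArg Fin.val h3
    rw [base_val, bval] at this
    simp only at this
    split_ifs at this <;> omega

lemma F1 (k : ℕ) : ∀ (j : ℕ) (m : Equiv.Perm (Fin (2 * n))), ¬ Good n j m → cM R n k j m = 0 := by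
  induction k with
  | zero =>
    intro j m h
    rw [cM, if_neg]
    rintro rfl
    exact h fun x _ => rfl
  | succ k ihk =>
    intro j
    induction j with
    | zero => intro m h; rw [cM]
    | succ j ihj =>
      intro m h
      rw [cM, ihj m fun h2 => h h2.succ, zero_add]
      split_ifs with h2
      · apply Finset.sum_eq_zero
        intro y hy
        apply ihk
        intro h3
        apply h
        rw [mem_filter] at hy
        have := h3.cj (h := h2) hy.2
        rwa [cj_cj] at this
      · rfl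

lemma FA (k : ℕ) : ∀ (j : ℕ) (m : Equiv.Perm (Fin (2 * n))), FPF m → k < rk (base n) m →
    cM R n k j m = 0 := by
  induction k with
  | zero =>
    intro j m hm h
    rw [cM, if_neg]
    rintro rfl
    rw [rk_self (base_fpf n)] at h
    exact lt_irrefl _ h
  | succ k ihk =>
    intro j
    induction j with
    | zero => intro m hm h; rw [cM]
    | succ j ihj =>
      intro m hm h
      rw [cM, ihj m hm h, zero_add]
      split_ifs with h2
      · apply Finset.sum_eq_zero
        intro y hy
        rw [mem_filter] at hy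
        apply ihk _ _ (cj_fpf hm)
        have := rk_ge (base_fpf n) hm (x₀ := ⟨2 * j, h2⟩) (i := y) hy.2.ne
        omega
      · rfl

lemma rk_eq_zero {V : Type*} [Fintype V] [DecidableEq V] {e m : Equiv.Perm V} (he : FPF e)
    (hm : FPF m) (h : rk e m = 0) : m = e := by
  ext1 x
  rw [← len_one_iff he hm]
  rw [rk, Finset.sum_eq_zero_iff] at h
  have h1 := h (O e m x) (mem_image_of_mem _ (mem_univ x))
  rw [card_O he hm] at h1
  have := len_pos e m x
  omega

lemma wt_self {V : Type*} [Fintype V] [DecidableEq V] {e : Equiv.Perm V} (he : FPF e)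
    {M : Type*} [CommMonoid M] {w : ℕ → M} (h0 : w 0 = 1) : wt w e e = 1 := by
  rw [wt]
  apply Finset.prod_eq_one
  intro D hD
  obtain ⟨x, _, rfl⟩ := mem_image.mp hD
  rw [card_O he he, (len_one_iff he he).mpr rfl, Nat.mul_one, Nat.div_self (by norm_num),
    Nat.sub_self, h0]

lemma good_zero {m : Equiv.Perm (Fin (2 * n))} (h : Good n 0 m) : m = base n := by
  ext1 x
  exact h x (by omega)

lemma good_of_eq {j : ℕ} {m : Equiv.Perm (Fin (2 * n))} (hm : FPF m) (hg : Good n (j + 1) m)
    {h : 2 * j < 2 * n} (hx : m ⟨2 * j, h⟩ = base n ⟨2 * j, h⟩) : Good n j m := by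
  intro x hx1
  rcases Nat.lt_or_ge x.val (2 * (j + 1)) with h1 | h1
  · have h2 : x.val = 2 * j ∨ x.val = 2 * j + 1 := by omega
    rcases h2 with h2 | h2
    · have : x = ⟨2 * j, h⟩ := Fin.ext h2
      rw [this, hx]
    · have h3 : x = base n ⟨2 * j, h⟩ := by
        apply Fin.ext
        rw [base_val, bval]
        simp only
        rw [if_pos (by omega), h2]
      rw [h3, ← hx, hm.inv, hx, (base_fpf n).inv]
  · exact hg x h1

lemma not_good {j : ℕ} {m : Equiv.Perm (Fin (2 * n))}
    {h : 2 * j < 2 * n} (hx : m ⟨2 * j, h⟩ ≠ base n ⟨2 * j, h⟩) : ¬ Good n j m :=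
  fun hg => hx (hg _ (le_refl _))

/-- the points below `x₀` in the component of `x₀` -/
lemma filter_eq {j : ℕ} {m : Equiv.Perm (Fin (2 * n))} (hm : FPF m) (hg : Good n (j + 1) m)
    {h : 2 * j < 2 * n} {y : Fin (2 * n)} (hy : y ∈ O (base n) m ⟨2 * j, h⟩) :
    y < ⟨2 * j, h⟩ ↔ y ∈ ((O (base n) m ⟨2 * j, h⟩).erase ⟨2 * j, h⟩).erase (base n ⟨2 * j, h⟩) := by
  have hb : (base n ⟨2 * j, h⟩).val = 2 * j + 1 := by
    rw [base_val, bval]
    simp only
    rw [if_pos (by omega)]
  constructor
  · intro h1
    rw [mem_erase, mem_erase]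
    refine ⟨?_, h1.ne, hy⟩
    rintro rfl
    have h2 : (base n ⟨2 * j, h⟩).val < 2 * j := h1
    omega
  · intro h1
    rw [mem_erase, mem_erase] at h1
    by_contra h2
    have h3 : 2 * j ≤ y.val := by
      rw [Fin.lt_def] at h2
      simp only at h2
      omega
    have h4 : y.val ≠ 2 * j := fun h4 => h1.2.1 (Fin.ext h4)
    have h5 : y.val ≠ 2 * j + 1 := fun h5 => h1.1 (Fin.ext (by rw [hb, h5]))
    -- the component of `y` is `{y, base y}`
    have h6 : Closed (base n) m {y, base n y} := by
      intro x hx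
      rw [mem_insert, mem_singleton] at hx
      have hby : 2 * (j + 1) ≤ (base n y).val := by
        rw [base_val, bval]
        split_ifs <;> omega
      rcases hx with rfl | rfl
      · refine ⟨by simp, ?_⟩
        rw [hg x (by omega)]
        simp
      · rw [hg _ hby, (base_fpf n).inv]
        simp
    have h7 := O_subset (mem_insert_self _ _) h6
    rw [O_eq (base_fpf n) hm hy] at h7
    have h8 := h7 (self_mem _)
    rw [mem_insert, mem_singleton] at h8
    rcases h8 with h8 | h8
    · exact h4 (congrArg Fin.val h8).symm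
    · have h9 := congrArg Fin.val h8
      rw [base_val, bval] at h9
      simp only at h9
      split_ifs at h9 <;> omega

/-- splitting a sum over the points below `x₀` -/
lemma sum_split {j : ℕ} {m : Equiv.Perm (Fin (2 * n))} (hm : FPF m) (hg : Good n (j + 1) m)
    {h : 2 * j < 2 * n} (g : Fin (2 * n) → R) (h0 : ∀ y, y ∉ O (base n) m ⟨2 * j, h⟩ → g y = 0) :
    ∑ y ∈ univ.filter (fun y : Fin (2 * n) => y < ⟨2 * j, h⟩), g y =
      ∑ s ∈ Ico 1 (len (base n) m ⟨2 * j, h⟩), g (u (base n) m ⟨2 * j, h⟩ s) +
        ∑ s ∈ range (len (base n) m ⟨2 * j, h⟩ - 1), g (v (base n) m ⟨2 * j, h⟩ s) := by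
  rw [← sum_inside g (base_fpf n) hm]
  symm
  apply Finset.sum_subset_zero_on_sdiff
  · intro y hy
    rw [mem_filter]
    refine ⟨mem_univ _, ?_⟩
    have hy2 : y ∈ O (base n) m ⟨2 * j, h⟩ := mem_of_mem_erase (mem_of_mem_erase hy)
    exact (filter_eq hm hg hy2).mpr hy
  · intro y hy
    rw [mem_sdiff, mem_filter] at hy
    apply h0
    intro h1
    exact hy.2 ((filter_eq hm hg h1).mp hy.1.2)
  · intro y _
    rfl

variable {w : ℕ → DualNumber R}

lemma FB (h0 : w 0 = 1)
    (hw : ∀ l, 2 ≤ l → (w (l - 1)).fst = (∑ s ∈ Ico 1 l, w (l - s - 1) * w (s - 1)).fst) (r : ℕ) :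
    ∀ (j : ℕ) (m : Equiv.Perm (Fin (2 * n))), j ≤ n → FPF m → Good n j m → rk (base n) m = r →
    cM R n r j m = (wt w (base n) m).fst := by
  induction r with
  | zero =>
    intro j m _ hm hg hr
    have := rk_eq_zero (base_fpf n) hm hr
    subst this
    rw [cM, if_pos rfl, wt_self hm h0, TrivSqZeroExt.fst_one]
  | succ r ihr =>
    intro j
    induction j with
    | zero =>
      intro m _ hm hg hr
      rw [good_zero hg, rk_self (base_fpf n)] at hr
      omega
    | succ j ihj =>
      intro m hj hm hg hr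
      have h2 : 2 * j < 2 * n := by omega
      rw [cM, dif_pos h2]
      have hout : ∀ y, y ∉ O (base n) m ⟨2 * j, h2⟩ →
          cM R n r (j + 1) (cj y ⟨2 * j, h2⟩ m) = 0 := by
        intro y hy
        apply FA _ _ _ (cj_fpf hm)
        rw [outside (base_fpf n) hm hy]
        omega
      rw [sum_split hm hg _ hout]
      by_cases hx : m ⟨2 * j, h2⟩ = base n ⟨2 * j, h2⟩
      · rw [ihj m (by omega) hm (good_of_eq hm hg hx) hr, (len_one_iff (base_fpf n) hm).mpr hx]
        simp
      · rw [F1 _ _ _ (not_good hx), zero_add]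
        obtain ⟨rest, rrest, e1, e2, e3, e4⟩ := inside w (x₀ := ⟨2 * j, h2⟩) (base_fpf n) hm
        have hl1 : len (base n) m ⟨2 * j, h2⟩ ≠ 1 := fun h => hx ((len_one_iff (base_fpf n) hm).mp h)
        have hl := len_pos (base n) m ⟨2 * j, h2⟩
        have hs2 : ∑ s ∈ range (len (base n) m ⟨2 * j, h2⟩ - 1),
            cM R n r (j + 1) (cj (v (base n) m ⟨2 * j, h2⟩ s) ⟨2 * j, h2⟩ m) = 0 := by
          apply Finset.sum_eq_zero
          intro s hs
          rw [mem_range] at hs
          apply FA _ _ _ (cj_fpf hm)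
          rw [(e4 s (by omega)).2, ← e2]
          omega
        rw [hs2, add_zero]
        have hs1 : ∀ s ∈ Ico 1 (len (base n) m ⟨2 * j, h2⟩),
            cM R n r (j + 1) (cj (u (base n) m ⟨2 * j, h2⟩ s) ⟨2 * j, h2⟩ m) =
            (w (len (base n) m ⟨2 * j, h2⟩ - s - 1) * w (s - 1) * rest).fst := by
          intro s hs
          rw [mem_Ico] at hs
          obtain ⟨f1, f2⟩ := e3 s hs.1 hs.2
          rw [← f1]
          apply ihr _ _ hj (cj_fpf hm)
          · apply hg.cj
            have hy2 : u (base n) m ⟨2 * j, h2⟩ s ∈ O (base n) m ⟨2 * j, h2⟩ :=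
              u_mem _ (self_mem _) (O_closed _) s
            rw [filter_eq hm hg hy2, mem_erase, mem_erase]
            refine ⟨?_, ?_, hy2⟩
            · rw [e_x₀ (base_fpf n) (m := m)]
              exact u_ne_v (base_fpf n) hm _ _
            · intro h3
              have := u_inj (base n) m ⟨2 * j, h2⟩ hs.2 hl (h3.trans (u_zero _ _ _).symm)
              omega
          · rw [f2]
            omega
        rw [Finset.sum_congr rfl hs1, e1, TrivSqZeroExt.fst_mul, hw _ (by omega),
          ← TrivSqZeroExt.fst_mul, Finset.sum_mul, TrivSqZeroExt.fst_sum]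

lemma FC (h0 : w 0 = 1)
    (hw : ∀ l, 2 ≤ l → w (l - 1) = ∑ s ∈ Ico 1 l, w (l - s - 1) * w (s - 1) +
      TrivSqZeroExt.inr (((l - 1 : ℕ) : R) * (w (l - 1)).fst)) (r : ℕ) :
    ∀ (j : ℕ) (m : Equiv.Perm (Fin (2 * n))), j ≤ n → FPF m → Good n j m → rk (base n) m = r →
    cM R n (r + 1) j m = (wt w (base n) m).snd := by
  have hw' : ∀ l, 2 ≤ l →
      (w (l - 1)).fst = (∑ s ∈ Ico 1 l, w (l - s - 1) * w (s - 1)).fst := by
    intro l hl
    have := congrArg TrivSqZeroExt.fst (hw l hl)
    rw [TrivSqZeroExt.fst_add, TrivSqZeroExt.fst_inr, add_zero] at this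
    exact this
  induction r with
  | zero =>
    intro j m hj hm hg hr
    have := rk_eq_zero (base_fpf n) hm hr
    subst this
    rw [wt_self hm h0, TrivSqZeroExt.snd_one]
    clear hr hg
    induction j with
    | zero => rw [cM]
    | succ j ihj =>
      have h2 : 2 * j < 2 * n := by omega
      rw [cM, dif_pos h2, ihj (by omega), zero_add]
      apply Finset.sum_eq_zero
      intro y hy
      rw [mem_filter] at hy
      apply FA _ _ _ (cj_fpf hm)
      rw [outside (base_fpf n) hm, rk_self hm]
      · omega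
      · intro h3
        have h4 : Closed (base n) (base n) {⟨2 * j, h2⟩, base n ⟨2 * j, h2⟩} := by
          intro x hx
          rw [mem_insert, mem_singleton] at hx
          rcases hx with rfl | rfl
          · simp
          · rw [(base_fpf n).inv]; simp
        have h5 := O_subset (mem_insert_self _ _) h4 h3
        rw [mem_insert, mem_singleton] at h5
        rcases h5 with h5 | h5
        · exact hy.2.ne h5
        · have h6 := hy.2
          rw [h5, Fin.lt_def, base_val, bval] at h6
          simp only at h6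
          split_ifs at h6 <;> omega
  | succ r ihr =>
    intro j
    induction j with
    | zero =>
      intro m _ hm hg hr
      rw [good_zero hg, rk_self (base_fpf n)] at hr
      omega
    | succ j ihj =>
      intro m hj hm hg hr
      have h2 : 2 * j < 2 * n := by omega
      rw [cM, dif_pos h2]
      have hout : ∀ y, y ∉ O (base n) m ⟨2 * j, h2⟩ →
          cM R n (r + 1) (j + 1) (cj y ⟨2 * j, h2⟩ m) = 0 := by
        intro y hy
        apply FA _ _ _ (cj_fpf hm)
        rw [outside (base_fpf n) hm hy]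
        omega
      rw [sum_split hm hg _ hout]
      by_cases hx : m ⟨2 * j, h2⟩ = base n ⟨2 * j, h2⟩
      · rw [ihj m (by omega) hm (good_of_eq hm hg hx) hr, (len_one_iff (base_fpf n) hm).mpr hx]
        simp
      · rw [F1 _ _ _ (not_good hx), zero_add]
        obtain ⟨rest, rrest, e1, e2, e3, e4⟩ := inside w (x₀ := ⟨2 * j, h2⟩) (base_fpf n) hm
        have hl1 : len (base n) m ⟨2 * j, h2⟩ ≠ 1 := fun h => hx ((len_one_iff (base_fpf n) hm).mp h)
        have hl := len_pos (base n) m ⟨2 * j, h2⟩
        have hs2 : ∀ s ∈ range (len (base n) m ⟨2 * j, h2⟩ - 1),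
            cM R n (r + 1) (j + 1) (cj (v (base n) m ⟨2 * j, h2⟩ s) ⟨2 * j, h2⟩ m) =
            (w (len (base n) m ⟨2 * j, h2⟩ - 1) * rest).fst := by
          intro s hs
          rw [mem_range] at hs
          obtain ⟨f1, f2⟩ := e4 s (by omega)
          rw [← f1]
          apply FB h0 hw' _ _ _ hj (cj_fpf hm)
          · apply hg.cj
            have hy2 : v (base n) m ⟨2 * j, h2⟩ s ∈ O (base n) m ⟨2 * j, h2⟩ :=
              v_mem _ (self_mem _) (O_closed _) s
            rw [filter_eq hm hg hy2, mem_erase, mem_erase]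
            refine ⟨?_, ?_, hy2⟩
            · rw [e_x₀ (base_fpf n) (m := m)]
              intro h3
              have := v_inj (base n) m ⟨2 * j, h2⟩ (by omega) (by omega) h3
              omega
            · exact (u_ne_v (base_fpf n) hm 0 s).symm
          · rw [f2, ← e2, hr]
        have hs1 : ∀ s ∈ Ico 1 (len (base n) m ⟨2 * j, h2⟩),
            cM R n (r + 1) (j + 1) (cj (u (base n) m ⟨2 * j, h2⟩ s) ⟨2 * j, h2⟩ m) =
            (w (len (base n) m ⟨2 * j, h2⟩ - s - 1) * w (s - 1) * rest).snd := by
          intro s hs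
          rw [mem_Ico] at hs
          obtain ⟨f1, f2⟩ := e3 s hs.1 hs.2
          rw [← f1]
          apply ihr _ _ hj (cj_fpf hm)
          · apply hg.cj
            have hy2 : u (base n) m ⟨2 * j, h2⟩ s ∈ O (base n) m ⟨2 * j, h2⟩ :=
              u_mem _ (self_mem _) (O_closed _) s
            rw [filter_eq hm hg hy2, mem_erase, mem_erase]
            refine ⟨?_, ?_, hy2⟩
            · rw [e_x₀ (base_fpf n) (m := m)]
              exact u_ne_v (base_fpf n) hm _ _
            · intro h3
              have := u_inj (base n) m ⟨2 * j, h2⟩ hs.2 hl (h3.trans (u_zero _ _ _).symm)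
              omega
          · rw [f2]
            omega
        rw [Finset.sum_congr rfl hs1, Finset.sum_congr rfl hs2, e1, sum_const, card_range]
        have h9 : (w (len (base n) m ⟨2 * j, h2⟩ - 1) * rest).snd =
            ((∑ s ∈ Ico 1 (len (base n) m ⟨2 * j, h2⟩),
              w (len (base n) m ⟨2 * j, h2⟩ - s - 1) * w (s - 1)) * rest).snd +
            ((len (base n) m ⟨2 * j, h2⟩ - 1 : ℕ) : R) *
              (w (len (base n) m ⟨2 * j, h2⟩ - 1) * rest).fst := by
          conv_lhs => rw [hw _ (show 2 ≤ len (base n) m ⟨2 * j, h2⟩ by omega)]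
          rw [add_mul, TrivSqZeroExt.snd_add]
          congr 1
          rw [TrivSqZeroExt.snd_mul, TrivSqZeroExt.fst_inr, TrivSqZeroExt.snd_inr,
            TrivSqZeroExt.fst_mul]
          simp
          ring
        rw [h9, Finset.sum_mul, TrivSqZeroExt.snd_sum, nsmul_eq_mul]

end

end Pool.Agent.NH68.Wg
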