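import Pool.Agent.NH68.Wg.Cyc

set_option autoImplicit false
set_option linter.unusedSectionVars false
set_option linter.unusedVariables false

/-!
# Multiplicative weights and the rank of a pair of matchings
-/

open Finset

namespace Pool.Agent.NH68.Wg

variable {V : Type*} [Fintype V] [DecidableEq V]

/-- the product of the weights of the components -/
noncomputable def wt {M : Type*} [CommMonoid M] (w : ℕ → M) (e m : Equiv.Perm V) : M :=
  ∏ D ∈ comps e m, w (D.card / 2 - 1)

/-- the sum of the reduced sizes of the components -/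
noncomputable def rk (e m : Equiv.Perm V) : ℕ := ∑ D ∈ comps e m, (D.card / 2 - 1)

variable {e m : Equiv.Perm V} {x₀ : V}

lemma image_O (he : FPF e) (hm : FPF m) : (O e m x₀).image (O e m) = {O e m x₀} := by
  apply Subset.antisymm
  · intro D hD
    obtain ⟨x, hx, rfl⟩ := mem_image.mp hD
    rw [mem_singleton]
    exact O_eq he hm hx
  · rw [singleton_subset_iff]
    exact mem_image_of_mem _ (self_mem x₀)

lemma cj_off {i : V} {C : Finset V} (hm : FPF m) (hC : Closed e m C) (hi : i ∈ C) (hx : x₀ ∈ C)
    (x : V) (h : x ∉ C) : m x = cj i x₀ m x := by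
  rw [cj_of_ne hm]
  · rintro rfl; exact h hi
  · rintro rfl; exact h hx
  · rintro rfl; exact h (hC _ hi).2
  · rintro rfl; exact h (hC _ hx).2

/-- all the facts about a point `i` of the component of `x₀` -/
lemma inside {M : Type*} [CommMonoid M] (w : ℕ → M) (he : FPF e) (hm : FPF m) :
    ∃ (rest : M) (rrest : ℕ),
      wt w e m = w (len e m x₀ - 1) * rest ∧ rk e m = (len e m x₀ - 1) + rrest ∧
      (∀ s, 1 ≤ s → s < len e m x₀ →
        wt w e (cj (u e m x₀ s) x₀ m) = w (len e m x₀ - s - 1) * w (s - 1) * rest ∧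
        rk e (cj (u e m x₀ s) x₀ m) = (len e m x₀ - s - 1) + (s - 1) + rrest) ∧
      (∀ s, s < len e m x₀ →
        wt w e (cj (v e m x₀ s) x₀ m) = w (len e m x₀ - 1) * rest ∧
        rk e (cj (v e m x₀ s) x₀ m) = (len e m x₀ - 1) + rrest) := by
  set C := O e m x₀ with hC
  have hCcl : Closed e m C := O_closed x₀
  have hxC : x₀ ∈ C := self_mem x₀
  have hcard : C.card / 2 - 1 = len e m x₀ - 1 := by rw [hC, card_O he hm]; omega
  refine ⟨∏ D ∈ Cᶜ.image (O e m), w (D.card / 2 - 1), ∑ D ∈ Cᶜ.image (O e m), (D.card / 2 - 1),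
    ?_, ?_, ?_, ?_⟩
  · rw [wt, prod_comps _ he hm hCcl, image_O he hm, prod_singleton, hcard]
  · rw [rk, sum_comps _ he hm hCcl, image_O he hm, sum_singleton, hcard]
  · intro s h1 h2
    have hiC : u e m x₀ s ∈ C := u_mem _ (self_mem _) (O_closed _) s
    have hm' := cj_fpf (i := u e m x₀ s) (x₀ := x₀) hm
    have hCcl' : Closed e (cj (u e m x₀ s) x₀ m) C := cj_closed hCcl hiC hxC
    have hoff := cj_off (x₀ := x₀) hm hCcl hiC hxC
    have himg : C.image (O e (cj (u e m x₀ s) x₀ m)) = {A1 e m x₀ s, A2 e m x₀ s} := by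
      obtain ⟨hs1, hs2⟩ := split he hm h1 h2
      apply Subset.antisymm
      · intro D hD
        obtain ⟨x, hx, rfl⟩ := mem_image.mp hD
        rw [mem_insert, mem_singleton, ← hs1, ← hs2]
        exact two he hm hiC x hx
      · intro D hD
        rw [mem_insert, mem_singleton] at hD
        rcases hD with rfl | rfl
        · rw [← hs1]; exact mem_image_of_mem _ hxC
        · rw [← hs2]; exact mem_image_of_mem _ hiC
    have hne : A1 e m x₀ s ≠ A2 e m x₀ s := by
      intro h
      have hd := A_disj he hm h1 h2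
      rw [← h, disjoint_self_iff_empty] at hd
      have := card_A1 he hm h2
      rw [hd, card_empty] at this
      omega
    have hc1 : (A1 e m x₀ s).card / 2 - 1 = len e m x₀ - s - 1 := by rw [card_A1 he hm h2]; omega
    have hc2 : (A2 e m x₀ s).card / 2 - 1 = s - 1 := by rw [card_A2 he hm h2]; omega
    constructor
    · rw [wt, prod_comps _ he hm' hCcl', himg, prod_pair hne, hc1, hc2,
        image_compl_congr he hm hm' hCcl hCcl' hoff]
    · rw [rk, sum_comps _ he hm' hCcl', himg, sum_pair hne, hc1, hc2,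
        image_compl_congr he hm hm' hCcl hCcl' hoff]
  · intro s h2
    have hiC : v e m x₀ s ∈ C := v_mem _ (self_mem _) (O_closed _) s
    have hm' := cj_fpf (i := v e m x₀ s) (x₀ := x₀) hm
    have hCcl' : Closed e (cj (v e m x₀ s) x₀ m) C := cj_closed hCcl hiC hxC
    have hoff := cj_off (x₀ := x₀) hm hCcl hiC hxC
    have himg : C.image (O e (cj (v e m x₀ s) x₀ m)) = {C} := by
      have h3 := twist he hm h2
      have h4 := image_O (x₀ := x₀) he hm'
      rw [h3] at h4
      exact h4
    constructor
    · rw [wt, prod_comps _ he hm' hCcl', himg, prod_singleton, hcard,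
        image_compl_congr he hm hm' hCcl hCcl' hoff]
    · rw [rk, sum_comps _ he hm' hCcl', himg, sum_singleton, hcard,
        image_compl_congr he hm hm' hCcl hCcl' hoff]

lemma outside (he : FPF e) (hm : FPF m) {i : V} (hi : i ∉ O e m x₀) :
    rk e (cj i x₀ m) = rk e m + 1 := by
  set C := O e m x₀ with hC
  set D := O e m i with hD
  have hm' := cj_fpf (i := i) (x₀ := x₀) hm
  have hCcl : Closed e m C := O_closed x₀
  have hDcl : Closed e m D := O_closed i
  have hxC : x₀ ∈ C := self_mem _
  have hiD : i ∈ D := self_mem _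
  have hE : Closed e m (C ∪ D) := by
    intro z hz
    rcases mem_union.mp hz with h | h
    · exact ⟨mem_union_left _ (hCcl z h).1, mem_union_left _ (hCcl z h).2⟩
    · exact ⟨mem_union_right _ (hDcl z h).1, mem_union_right _ (hDcl z h).2⟩
  have hxE : x₀ ∈ C ∪ D := mem_union_left _ hxC
  have hiE : i ∈ C ∪ D := mem_union_right _ hiD
  have hE' : Closed e (cj i x₀ m) (C ∪ D) := cj_closed hE hiE hxE
  have hoff := cj_off (x₀ := x₀) hm hE hiE hxE
  have hmerge : O e (cj i x₀ m) x₀ = C ∪ D := merge he hm hi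
  have himg' : (C ∪ D).image (O e (cj i x₀ m)) = {C ∪ D} := by
    rw [← hmerge]
    exact image_O he hm'
  have hne : C ≠ D := by
    intro h
    apply hi
    rw [h]
    exact hiD
  have hdisj : Disjoint C D := by
    rw [Finset.disjoint_left]
    intro z hz hz'
    apply hne
    rw [hC, hD, ← O_eq he hm hz, ← O_eq he hm hz']
  have himg : (C ∪ D).image (O e m) = {C, D} := by
    rw [image_union, image_O he hm, image_O he hm]
    rfl
  have hcC := card_O (x₀ := x₀) he hm
  have hcD := card_O (x₀ := i) he hm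
  have hlC := len_pos e m x₀
  have hlD := len_pos e m i
  rw [rk, rk, sum_comps _ he hm' hE', sum_comps _ he hm hE, himg, himg', sum_singleton,
    sum_pair hne, image_compl_congr he hm hm' hE hE' hoff, card_union_of_disjoint hdisj,
    hC, hD, hcC, hcD]
  omega

lemma rk_ge (he : FPF e) (hm : FPF m) {i : V} (hix : i ≠ x₀) :
    rk e m ≤ rk e (cj i x₀ m) + 1 := by
  by_cases hi : i ∈ O e m x₀
  · obtain ⟨rest, rrest, _, h2, h3, h4⟩ := inside (fun _ : ℕ => (1 : ℕ)) (x₀ := x₀) he hm
    rw [O_eq_image he hm] at hi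
    rcases mem_union.mp hi with h | h
    · obtain ⟨s, hs, rfl⟩ := mem_image.mp h
      rw [mem_range] at hs
      have hs1 : 1 ≤ s := by
        rcases Nat.eq_zero_or_pos s with rfl | h5
        · exact absurd rfl hix
        · exact h5
      rw [(h3 s hs1 hs).2, h2]
      omega
    · obtain ⟨s, hs, rfl⟩ := mem_image.mp h
      rw [mem_range] at hs
      rw [(h4 s hs).2, h2]
      omega
  · rw [outside he hm hi]
    omega

/-- sums over the points of the component other than `x₀` and `e x₀` -/
lemma sum_inside {M : Type*} [AddCommMonoid M] (g : V → M) (he : FPF e) (hm : FPF m) :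
    ∑ i ∈ ((O e m x₀).erase x₀).erase (e x₀), g i =
      ∑ s ∈ Ico 1 (len e m x₀), g (u e m x₀ s) + ∑ s ∈ range (len e m x₀ - 1), g (v e m x₀ s) := by
  have hl := len_pos e m x₀
  have h1 : ((O e m x₀).erase x₀).erase (e x₀) = (Ico 1 (len e m x₀)).image (u e m x₀) ∪
      (range (len e m x₀ - 1)).image (v e m x₀) := by
    rw [O_eq_image he hm]
    ext x
    simp only [mem_erase, mem_union, mem_image, mem_range, mem_Ico]
    constructor
    · rintro ⟨h2, h3, (⟨s, hs, rfl⟩ | ⟨s, hs, rfl⟩)⟩
      · left
        refine ⟨s, ⟨?_, hs⟩, rfl⟩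
        rcases Nat.eq_zero_or_pos s with rfl | h4
        · exact absurd rfl h3
        · exact h4
      · right
        refine ⟨s, ?_, rfl⟩
        by_contra h4
        apply h2
        rw [e_x₀ he]
        congr 1
        omega
    · rintro (⟨s, hs, rfl⟩ | ⟨s, hs, rfl⟩)
      · refine ⟨?_, ?_, Or.inl ⟨s, hs.2, rfl⟩⟩
        · rw [e_x₀ he]; exact u_ne_v he hm _ _
        · intro h
          have := u_inj e m x₀ hs.2 hl (h.trans (u_zero e m x₀).symm)
          omega
      · refine ⟨?_, ?_, Or.inr ⟨s, by omega, rfl⟩⟩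
        · rw [e_x₀ he]
          intro h
          have := v_inj e m x₀ (by omega) (by omega) h
          omega
        · exact (u_ne_v he hm 0 s).symm
  rw [h1, sum_union (disj_uv he hm _ _), sum_image, sum_image]
  · intro s hs t ht h
    simp only [coe_range, Set.mem_Iio] at hs ht
    exact v_inj e m x₀ (by omega) (by omega) h
  · intro s hs t ht h
    simp only [coe_Ico, Set.mem_Ico] at hs ht
    exact u_inj e m x₀ (by omega) (by omega) h

lemma len_one_iff (he : FPF e) (hm : FPF m) : len e m x₀ = 1 ↔ m x₀ = e x₀ := by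
  constructor
  · intro h
    have h1 := u_len e m x₀
    rw [h] at h1
    have h2 : e (m x₀) = x₀ := h1
    rw [← h2, he.inv, h2]
  · intro h
    rw [len, Function.minimalPeriod_eq_one_iff_isFixedPt]
    change e (m x₀) = x₀
    rw [h, he.inv]

lemma rk_self (he : FPF e) : rk e e = 0 := by
  rw [rk]
  apply Finset.sum_eq_zero
  intro D hD
  obtain ⟨x, _, rfl⟩ := mem_image.mp hD
  rw [card_O he he, (len_one_iff he he).mpr rfl, Nat.mul_one, Nat.div_self (by norm_num),
    Nat.sub_self]

end Pool.Agent.NH68.Wg
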